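import Pool.Agent.W620.SC.Def
import Pool.Agent.W262.TW.Stm

/-!
# Sections of twists of locally soluble curves: statements of the parts

(helper623, helper262.)  `SECGLOB`, `SECPT`, `SECLOC` are proved by helper623.
-/

namespace Pool.Agent.W623.SecE

open Pool.Agent.W620.SC Pool.Agent.W262.TW Polynomial

universe u v w

/-- the global square classes attached to a section -/
def SECGLOB : Prop :=
  ∀ (k : Type u) (F : Type v) (Ω : Type w) [Field k] [CharZero k] [Field F] [Field Ω] [Algebra k F]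
    [Algebra F Ω] [Algebra k Ω] [IsScalarTower k F Ω] [IsAlgClosed Ω] [Algebra.IsAlgebraic F Ω]
    (f : k[X]), f.Separable → Even f.natDegree → ∀ a : k, a ≠ 0 →
    ∀ (U : Set (ValuationSubring F)), (∀ O ∈ U, ∀ c : k, algebraMap k F c ∈ O) →
    ∀ (G : GSection k F Ω U) (x y : F), algebraMap k F a * y ^ 2 = aeval x f →
    Transcendental k x → ∀ r : k[X], r ∣ f → Even r.natDegree →
      ∃ (c : k) (β : unramified F Ω U), c ≠ 0 ∧ (∀ σ, G.toHom σ β = β) ∧
        algebraMap k Ω c * (β : Ω) ^ 2 = algebraMap F Ω (aeval x r)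

/-- if `x` is algebraic, then there is a rational point -/
def SECPT : Prop :=
  ∀ (k : Type u) (F : Type v) (Ω : Type w) [Field k] [CharZero k] [Field F] [Field Ω] [Algebra k F]
    [Algebra F Ω] [Algebra k Ω] [IsScalarTower k F Ω] [IsAlgClosed Ω] [Algebra.IsAlgebraic F Ω]
    (f : k[X]) (a : k), a ≠ 0 →
    ∀ (U : Set (ValuationSubring F)), (∀ O ∈ U, ∀ c : k, algebraMap k F c ∈ O) →
    ∀ (_ : GSection k F Ω U) (x y : F), algebraMap k F a * y ^ 2 = aeval x f →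
    ¬ Transcendental k x → ∃ x' y' : k, algebraMap k F x' = x ∧ algebraMap k F y' = y ∧
      a * y' ^ 2 = f.eval x'

/-- the local theorem -/
def SECLOC : Prop :=
  ∀ (A k : Type u) (F : Type v) (Ω : Type w) [CommRing A] [IsDomain A]
    [IsDiscreteValuationRing A] [Finite (IsLocalRing.ResidueField A)] [Field k] [Algebra A k]
    [IsFractionRing A k] [CharZero k] [Field F] [Field Ω] [Algebra k F] [Algebra F Ω]
    [Algebra k Ω] [IsScalarTower k F Ω] [IsAlgClosed Ω] [Algebra.IsAlgebraic F Ω],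
    IsUnit (2 : A) → ∀ (I : Type) [Fintype I] (r : I → A[X]),
    (∀ i, IsUnit (r i).leadingCoeff) → (∀ i, Even (r i).natDegree) →
    ((∏ i, r i).map (IsLocalRing.residue A)).Separable → 4 ≤ ∑ i, (r i).natDegree →
    ∀ ϖ : A, Irreducible ϖ → ∀ (a : k) (t : A) (m : ℤ), IsUnit t →
    a = algebraMap A k t * algebraMap A k ϖ ^ m →
    ∀ (U : Set (ValuationSubring F)), (∀ O ∈ U, ∀ c : k, algebraMap k F c ∈ O) →
    ∀ (G : GSection k F Ω U) (x y : F),
    algebraMap k F a * y ^ 2 = ∏ i, aeval x ((r i).map (algebraMap A k)) → Transcendental k x →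
    ∀ (c : I → k) (β : I → unramified F Ω U), (∀ i, c i ≠ 0) → (∀ i σ, G.toHom σ (β i) = β i) →
    (∀ i, algebraMap k Ω (c i) * (β i : Ω) ^ 2 =
      algebraMap F Ω (aeval x ((r i).map (algebraMap A k)))) →
    (Even m → ∀ i, ∃ (u : A) (j : ℤ), IsUnit u ∧
      c i = algebraMap A k u * algebraMap A k ϖ ^ (2 * j)) ∧
    (Odd m → ∃ (b : A) (i : I), (r i).eval b ∈ IsLocalRing.maximalIdeal A ∧
      ∀ l, l ≠ i → ∃ (u e : A) (j : ℤ), IsUnit u ∧
        c l = algebraMap A k u * algebraMap A k ϖ ^ (2 * j) ∧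
        u * (r l).eval b - e ^ 2 ∈ IsLocalRing.maximalIdeal A)

/-- the local conditions for the square classes at the primes `p > z0` -/
def SelL {K : Type} [Fintype K] [DecidableEq K] (f : K → ℤ[X]) (z0 : ℕ) (d : ℤ) : Prop :=
  ∃ s : K → ℤ, (∀ k, Squarefree (s k)) ∧ IsSquare (d * ∏ k, s k) ∧
    ∀ p : ℕ, p.Prime → z0 < p → ∀ i, (p : ℤ) ∣ s i →
      (∀ k, k ≠ i → ¬ (p : ℤ) ∣ s k) ∧ ngs s i p ∈ Th f i p

/-- the hypotheses on the factors -/
def AdmE {K : Type} [Fintype K] (f : K → ℤ[X]) : Prop :=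
  (∀ k, Irreducible ((f k).map (Int.castRingHom ℚ))) ∧ (∀ k, Even (f k).natDegree) ∧
  (∀ k l, k ≠ l → ¬ Associated ((f k).map (Int.castRingHom ℚ)) ((f l).map (Int.castRingHom ℚ)))

/-- the analytic estimate -/
def FINL : Prop := ∀ (K : Type) [Fintype K] [DecidableEq K] (f : K → ℤ[X]), AdmE f → ∀ z0 : ℕ,
  ∃ δ : ℝ, 0 < δ ∧ ∃ C : ℝ, ∀ X : ℕ, 2 ≤ X →
    ({d : ℤ | d.natAbs ≤ X ∧ Squarefree d ∧ SelL f z0 d}.ncard : ℝ) ≤
      C * X * (Real.log X) ^ (-δ)

/-- from sections to square classes over the rational numbers -/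
def ARITH : Prop := ∀ (K : Type) [Fintype K] [DecidableEq K] (f : K → ℤ[X]), AdmE f →
  4 ≤ ∑ k, (f k).natDegree → ∃ z0 : ℕ, ∀ d : ℤ, Squarefree d →
  ∀ (F : Type v) (Ω : Type w) [Field F] [Field Ω] [Algebra ℚ F]
    [Algebra F Ω] [Algebra ℚ Ω] [IsScalarTower ℚ F Ω] [IsAlgClosed Ω] [Algebra.IsAlgebraic F Ω]
    (U : Set (ValuationSubring F)), (∀ O ∈ U, ∀ c : ℚ, algebraMap ℚ F c ∈ O) →
    ∀ (_ : GSection ℚ F Ω U) (x y : F), (d : F) * y ^ 2 = ∏ k, aeval x (f k) →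
      SelL f z0 d ∨ Sel f d

end Pool.Agent.W623.SecE
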