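import Pool.Agent.W623.SecE.Glb
import Pool.Agent.W623.SecC.All

/-! # The local theorem -/

namespace Pool.Agent.W623.SecE

open Pool.Agent.W620.SC Pool.Agent.W623.SecC Polynomial IntermediateField

universe u v w

section lift

variable {A kb : Type*} [CommRing A] [IsLocalRing A] [Field kb] [Algebra A kb]
  (V : ValuationSubring kb) (hV : ∀ a : A, algebraMap A kb a ∈ V)
  (hm : ∀ a ∈ IsLocalRing.maximalIdeal A, algebraMap A kb a ∈ V.nonunits)

include hV hm in
/-- elements fixed by Frobenius are congruent to elements of `A` -/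
lemma lift_of_fixed [Finite (IsLocalRing.ResidueField A)] (φ : kb → kb)
    (hφ : ∀ x ∈ V, φ x - x ^ Nat.card (IsLocalRing.ResidueField A) ∈ V.nonunits) (θ : kb)
    (hθV : θ ∈ V) (hfix : φ θ = θ) : ∃ b : A, algebraMap A kb b - θ ∈ V.nonunits := by
  classical
  have := Fintype.ofFinite (IsLocalRing.ResidueField A)
  set q := Nat.card (IsLocalRing.ResidueField A) with hq
  set t := IsLocalRing.residue V ⟨θ, hθV⟩ with ht
  have h1 : t ^ q = t := by
    have h2 := hφ θ hθV
    rw [hfix] at h2
    have h3 : IsLocalRing.residue V (⟨θ, hθV⟩ - ⟨θ, hθV⟩ ^ q) = 0 := residue_eq_zero V h2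
    rw [map_sub, map_pow, sub_eq_zero] at h3
    exact h3.symm
  have h2 : ∃ r : IsLocalRing.ResidueField A, resMap V hV hm r = t := by
    have hcard : Fintype.card (IsLocalRing.ResidueField A) = q := by
      rw [hq, Nat.card_eq_fintype_card]
    have hs : (X ^ q - X : (IsLocalRing.ResidueField A)[X]).Splits := by
      rw [splits_iff_card_roots, ← hcard, FiniteField.roots_X_pow_card_sub_X,
        FiniteField.X_pow_card_sub_X_natDegree_eq _ Fintype.one_lt_card]
      rfl
    have hne : (X ^ q - X : (IsLocalRing.ResidueField A)[X]) ≠ 0 := by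
      rw [← hcard]
      exact FiniteField.X_pow_card_sub_X_ne_zero _ Fintype.one_lt_card
    exact hs.mem_range_of_isRoot (i := resMap V hV hm) (x := t) hne (by
      simp [h1])
  obtain ⟨r, hr⟩ := h2
  obtain ⟨b, rfl⟩ := IsLocalRing.residue_surjective r
  refine ⟨b, ?_⟩
  have h3 : IsLocalRing.residue V (⟨algebraMap A kb b, hV b⟩ - ⟨θ, hθV⟩) = 0 := by
    rw [map_sub, sub_eq_zero]
    exact hr
  exact nonunit_of_residue V h3

include hV in
lemma eval_congr (g : A[X]) (b : A) (θ : kb) (hθV : θ ∈ V)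
    (h : algebraMap A kb b - θ ∈ V.nonunits) :
    algebraMap A kb (g.eval b) - (g.map (algebraMap A kb)).eval θ ∈ V.nonunits := by
  have hsub : V.subtype.comp (toV V hV) = algebraMap A kb := by
    ext a
    rfl
  set b' : V := ⟨algebraMap A kb b, hV b⟩ with hb'
  set θ' : V := ⟨θ, hθV⟩ with hθ'
  obtain ⟨d, hd⟩ := sub_dvd_eval_sub b' θ' (g.map (toV V hV))
  have h1 : algebraMap A kb (g.eval b) = V.subtype ((g.map (toV V hV)).eval b') := by
    rw [eval_map, hom_eval₂, hsub]
    exact (eval₂_at_apply (algebraMap A kb) b).symm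
  have h2 : (g.map (algebraMap A kb)).eval θ = V.subtype ((g.map (toV V hV)).eval θ') := by
    rw [eval_map, eval_map, hom_eval₂, hsub]
    rfl
  rw [h1, h2, ← map_sub, hd, map_mul, mul_comm]
  exact nonunit_mul d.2 h

end lift

theorem secloc' (hA7 : PartA7.{w, w}) (hA8 : PartA8.{w, w}) : SECLOC.{u, v, w} := by
  classical
  intro A k F Ω _ _ _ _ _ _ _ _ _ _ _ _ _ _ _ _ h2 I _ r hlcr hevr hs h4 ϖ hϖ a t m ht ha U hU G x
    y hxy hxt c β hc0 hβ hcβ
  set f : A[X] := ∏ i, r i with hf
  have hr0 : ∀ i, r i ≠ 0 := fun i h => by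
    have := (hlcr i).ne_zero
    rw [h, leadingCoeff_zero] at this
    exact this rfl
  have hlc : IsUnit f.leadingCoeff := by
    rw [hf, leadingCoeff_prod]
    exact IsUnit.prod_univ_iff.2 hlcr
  have hdegf : f.natDegree = ∑ i, (r i).natDegree := natDegree_prod _ _ fun i _ => hr0 i
  have hev : Even f.natDegree := by
    rw [hdegf]
    exact Finset.even_sum _ fun i _ => hevr i
  have h4f : 4 ≤ f.natDegree := by rwa [hdegf]
  have hxyf : algebraMap k F a * y ^ 2 = aeval x (f.map (algebraMap A k)) := by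
    rw [hxy, hf, Polynomial.map_prod, map_prod]
  have hac : IsAlgClosure k (algebraicClosure k Ω) := inferInstance
  have hkb : IsAlgClosed (algebraicClosure k Ω) := hac.1
  let _ : Algebra A (algebraicClosure k Ω) :=
    ((algebraMap k (algebraicClosure k Ω)).comp (algebraMap A k)).toAlgebra
  have hst : IsScalarTower A k (algebraicClosure k Ω) :=
    IsScalarTower.of_algebraMap_eq (fun _ => rfl)
  obtain ⟨V, φ, hVa, hVm, hφV, hφq⟩ :=
    W327.SecC.partB1 A k (algebraicClosure k Ω)
  set q := Nat.card (IsLocalRing.ResidueField A) with hq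
  have hq2 : 2 ≤ q := by
    have := Fintype.ofFinite (IsLocalRing.ResidueField A)
    rw [hq, Nat.card_eq_fintype_card]
    exact Fintype.one_lt_card
  have hunit : ∀ b : A, IsUnit b → IsU V (algebraMap A (algebraicClosure k Ω) b) := by
    rintro b ⟨b, rfl⟩
    refine ⟨(b.isUnit.map (algebraMap A (algebraicClosure k Ω))).ne_zero, hVa _, ?_⟩
    have h1 : (algebraMap A (algebraicClosure k Ω) (b : A))⁻¹ =
        algebraMap A (algebraicClosure k Ω) ((b⁻¹ : Aˣ) : A) := by
      refine inv_eq_of_mul_eq_one_right ?_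
      rw [← map_mul, Units.mul_inv, map_one]
    rw [h1]
    exact hVa _
  have hmem_max : ∀ b : A, algebraMap A (algebraicClosure k Ω) b ∈ V.nonunits →
      b ∈ IsLocalRing.maximalIdeal A := by
    intro b hb
    rw [IsLocalRing.mem_maximalIdeal]
    intro h
    exact (hunit b h).not_nonunit hb
  have hAinj : Function.Injective (algebraMap A (algebraicClosure k Ω)) := by
    rw [IsScalarTower.algebraMap_eq A k (algebraicClosure k Ω)]
    exact (algebraMap k (algebraicClosure k Ω)).injective.comp (IsFractionRing.injective A k)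
  have hϖk0 : algebraMap A k ϖ ≠ 0 := by
    rw [Ne, map_eq_zero_iff _ (IsFractionRing.injective A k)]
    exact hϖ.ne_zero
  set p := algebraMap A (algebraicClosure k Ω) ϖ with hp
  have hp0 : p ≠ 0 := by
    rw [hp, Ne, map_eq_zero_iff _ hAinj]
    exact hϖ.ne_zero
  have hpn : p ∈ V.nonunits := hVm _ (by
    rw [hϖ.maximalIdeal_eq]
    exact Ideal.mem_span_singleton_self ϖ)
  have hpk : algebraMap k (algebraicClosure k Ω) (algebraMap A k ϖ) = p := rfl
  have h2V : (2 : algebraicClosure k Ω)⁻¹ ∈ V := by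
    have h1 := (hunit 2 h2).2.2
    rwa [map_ofNat] at h1
  -- the roots
  obtain ⟨hnd, hdist⟩ := roots_distinct V hVa hVm f hlc hs
  set P := f.map (algebraMap A (algebraicClosure k Ω)) with hP
  have hlc0 : algebraMap A (algebraicClosure k Ω) f.leadingCoeff ≠ 0 := (hunit _ hlc).1
  have hlcP : P.leadingCoeff = algebraMap A (algebraicClosure k Ω) f.leadingCoeff :=
    leadingCoeff_map_of_leadingCoeff_ne_zero _ hlc0
  have hP0 : P ≠ 0 := by
    intro h
    apply hlc0
    rw [← hlcP, h, leadingCoeff_zero]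
  have hPdeg : P.natDegree = f.natDegree := natDegree_map_of_leadingCoeff_ne_zero _ hlc0
  have hmemroots : ∀ θ, θ ∈ P.roots.toFinset ↔ aeval θ f = 0 := by
    intro θ
    rw [Multiset.mem_toFinset, mem_roots hP0, IsRoot.def, hP, eval_map]
    rfl
  have hcardX : Fintype.card (Rt P) = f.natDegree := by
    rw [Rt_card P hP0 hnd, hPdeg]
  have haevφ : ∀ (g : A[X]) θ, aeval (φ θ) g = φ (aeval θ g) := by
    intro g θ
    rw [aeval_def, aeval_def]
    change _ = (φ : algebraicClosure k Ω →+* algebraicClosure k Ω) _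
    rw [hom_eval₂]
    congr 1
    ext b
    exact congrArg Subtype.val (φ.commutes (algebraMap A k b)).symm
  have hφroot : ∀ θ, θ ∈ P.roots.toFinset ↔ φ θ ∈ P.roots.toFinset := by
    intro θ
    rw [hmemroots, hmemroots, haevφ, map_eq_zero_iff _ φ.injective]
  let π : Equiv.Perm (Rt P) := φ.toEquiv.subtypeEquiv hφroot
  have hπ : ∀ i : Rt P, φ (i : algebraicClosure k Ω) = (π i : algebraicClosure k Ω) := fun i => rfl
  have hθV : ∀ i : Rt P, (i : algebraicClosure k Ω) ∈ V := fun i =>
    Pool.Agent.W308.SecC.root_mem V hVa f hlc _ ((hmemroots _).1 i.2)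
  have hθd : ∀ i j : Rt P, i ≠ j → IsU V ((i : algebraicClosure k Ω) - j) := by
    intro i j hij
    exact hdist _ (Multiset.mem_toFinset.1 i.2) _ (Multiset.mem_toFinset.1 j.2)
      (fun h => hij (Subtype.ext h))
  -- the splitting field
  set L := IntermediateField.adjoin k {θ : algebraicClosure k Ω | aeval θ f = 0} with hL
  have hLtame : ∀ c ∈ L, c ≠ 0 → ∃ j : ℤ, IsU V (c / p ^ j) := fun c hc hc0 =>
    Pool.Agent.W308.SecC.partB2 A k (algebraicClosure k Ω) V hVa hVm ϖ hϖ f hlc hs c hc hc0
  set cc : algebraicClosure k Ω := algebraMap k (algebraicClosure k Ω)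
    (a / algebraMap A k f.leadingCoeff) with hcc
  have hcu : IsU V (cc / p ^ m) := by
    have h1 : cc / p ^ m = algebraMap A (algebraicClosure k Ω) t /
        algebraMap A (algebraicClosure k Ω) f.leadingCoeff := by
      rw [hcc, ha, map_div₀, map_mul, map_zpow₀, hpk, ← IsScalarTower.algebraMap_apply,
        ← IsScalarTower.algebraMap_apply]
      have h3 : p ^ m ≠ 0 := zpow_ne_zero _ hp0
      field_simp
    rw [h1]
    exact (hunit t ht).div (hunit _ hlc)
  have hcomp : ∀ g : A[X], ((g.map (algebraMap A k)).map (algebraMap k F)).map (algebraMap F Ω) =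
      (g.map (algebraMap A (algebraicClosure k Ω))).map
        (algebraMap (algebraicClosure k Ω) Ω) := by
    intro g
    rw [Polynomial.map_map, Polynomial.map_map, Polynomial.map_map,
      ← IsScalarTower.algebraMap_eq k F Ω, IsScalarTower.algebraMap_eq A k (algebraicClosure k Ω),
      ← RingHom.comp_assoc, ← IsScalarTower.algebraMap_eq k (algebraicClosure k Ω) Ω]
  have heval : ∀ g : A[X], ((g.map (algebraMap A k)).map (algebraMap k F)).eval x =
      aeval x (g.map (algebraMap A k)) := by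
    intro g
    rw [eval_map_algebraMap]
  have hxyΩ : (cc : Ω) * algebraMap F Ω y ^ 2 =
      ∏ i : Rt P, (algebraMap F Ω x - ((i : algebraicClosure k Ω) : Ω)) := by
    have h1 := eq_roots P hP0 hnd P dvd_rfl _ (hcomp f) x
    rw [heval, ← hxyf, RQ_self, map_mul, map_pow, ← IsScalarTower.algebraMap_apply] at h1
    have h3 : ((P.leadingCoeff : algebraicClosure k Ω) : Ω) ≠ 0 := by
      change algebraMap (algebraicClosure k Ω) Ω P.leadingCoeff ≠ 0
      exact (_root_.map_ne_zero _).2 (leadingCoeff_ne_zero.2 hP0)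
    have h5 : (cc : Ω) = algebraMap k Ω a / ((P.leadingCoeff : algebraicClosure k Ω) : Ω) := by
      change algebraMap (algebraicClosure k Ω) Ω cc = _ / algebraMap (algebraicClosure k Ω) Ω _
      rw [hcc, hlcP, map_div₀, map_div₀, ← IsScalarTower.algebraMap_apply]
      rfl
    rw [h5, div_mul_eq_mul_div, h1, mul_div_cancel_left₀ _ h3]
  have htr := tr_const (k := k) (Ω := Ω) hxt
  have hy0 : y ≠ 0 := by
    rintro rfl
    rw [map_zero, zero_pow (by norm_num), mul_zero] at hxyΩ
    obtain ⟨i, -, hi⟩ := Finset.prod_eq_zero_iff.1 hxyΩ.symm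
    exact htr i (sub_eq_zero.1 hi).symm
  obtain ⟨S, hLS, hφS, hSsq, hStame⟩ := Pool.Agent.W933.SecC.partB3 k (algebraicClosure k Ω) V h2V
    (algebraMap A k ϖ) hϖk0 hpn L hLtame φ hφV (by
      have h1 : L.map (φ : algebraicClosure k Ω →ₐ[k] algebraicClosure k Ω) = L := by
        rw [hL, IntermediateField.adjoin_map]
        congr 1
        ext θ
        constructor
        · rintro ⟨θ', h1, rfl⟩
          exact (hmemroots _).1 ((hφroot θ').1 ((hmemroots _).2 h1))
        · intro h1
          refine ⟨φ.symm θ, ?_, φ.apply_symm_apply θ⟩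
          refine (hmemroots _).1 ((hφroot _).2 ?_)
          rw [φ.apply_symm_apply]
          exact (hmemroots _).2 h1
      intro z
      constructor
      · intro h3
        rw [← h1] at h3
        obtain ⟨z', h5, h6⟩ := h3
        have h7 : z' = z := φ.injective h6
        rw [← h7]
        exact h5
      · intro h3
        rw [← h1]
        exact ⟨z, h3, rfl⟩)
  set D := mkDat U hU G V S (algebraMap A k ϖ) hϖk0 hpn hSsq hStame φ hφV hφS with hD
  have hOk : D.Ok q := mk_ok U hU G V S (algebraMap A k ϖ) hϖk0 hpn hSsq hStame φ hφV hφS hA7 hA8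
    h2V q hq2 hφq
  have hSq : D.HasSq := mk_sq U hU G V S (algebraMap A k ϖ) hϖk0 hpn hSsq hStame φ hφV hφS
  let B : D.Br (Rt P) := mkBr U hU G V S (algebraMap A k ϖ) hϖk0 hpn hSsq hStame φ hφV hφS
    (X := Rt P) (by rw [hcardX]; exact hev) (by rw [hcardX]; exact h4f) (fun i => i)
    (fun i => hLS (IntermediateField.subset_adjoin k _ ((hmemroots _).1 i.2))) hθd π hπ x y hy0 cc
    (S.algebraMap_mem _) m hcu hxyΩ htr
  -- the factors
  set Q : I → (algebraicClosure k Ω)[X] := fun i =>
    (r i).map (algebraMap A (algebraicClosure k Ω)) with hQ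
  have hPQ : P = ∏ i, Q i := by rw [hP, hf, Polynomial.map_prod]
  have hQP : ∀ i, Q i ∣ P := fun i => by
    rw [hPQ]
    exact Finset.dvd_prod_of_mem Q (Finset.mem_univ i)
  have hlcQ : ∀ i, (Q i).leadingCoeff = algebraMap A (algebraicClosure k Ω) (r i).leadingCoeff :=
    fun i => leadingCoeff_map_of_leadingCoeff_ne_zero _ (hunit _ (hlcr i)).1
  have hdegQ : ∀ i, (Q i).natDegree = (r i).natDegree :=
    fun i => natDegree_map_of_leadingCoeff_ne_zero _ (hunit _ (hlcr i)).1
  have hcardR : ∀ i, Even (RQ P (Q i)).card := fun i => by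
    rw [RQ_card P (Q i) hP0 (hQP i) hnd, hdegQ]
    exact hevr i
  have hRπ : ∀ i (j : Rt P), j ∈ RQ P (Q i) ↔ B.π j ∈ RQ P (Q i) := by
    intro i j
    rw [mem_RQ, mem_RQ, IsRoot.def, IsRoot.def, hQ, eval_map, eval_map]
    change aeval (j : algebraicClosure k Ω) (r i) = 0 ↔
      aeval (φ (j : algebraicClosure k Ω)) (r i) = 0
    rw [haevφ, map_eq_zero_iff _ φ.injective]
  have hβRS : ∀ i, β i ∈ D.RS := fun i σ _ => hβ i σ
  have heq : ∀ i, D.ι (algebraMap k (algebraicClosure k Ω) (c i)) * β i ^ 2 =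
      D.ι (algebraMap A (algebraicClosure k Ω) (r i).leadingCoeff) *
        ∏ j ∈ RQ P (Q i), (B.x - D.ι (B.θ j)) := by
    intro i
    apply (algebraMap (unramified F Ω U) Ω).injective
    rw [map_mul, map_mul, map_pow, map_prod]
    have h1 := eq_roots P hP0 hnd (Q i) (hQP i) _ (hcomp (r i)) x
    rw [heval, ← hcβ, hlcQ] at h1
    exact h1
  have hkunit : ∀ b : A, IsUnit b → ∀ j : ℤ,
      IsU V (algebraMap k (algebraicClosure k Ω)
        (algebraMap A k b * algebraMap A k ϖ ^ j) / p ^ j) := by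
    intro b hb j
    have h1 : algebraMap k (algebraicClosure k Ω)
        (algebraMap A k b * algebraMap A k ϖ ^ j) / p ^ j =
        algebraMap A (algebraicClosure k Ω) b := by
      rw [map_mul, map_zpow₀, hpk, ← IsScalarTower.algebraMap_apply]
      have h3 : p ^ j ≠ 0 := zpow_ne_zero _ hp0
      field_simp
    rw [h1]
    exact hunit b hb
  have hlcS : ∀ i, algebraMap A (algebraicClosure k Ω) (r i).leadingCoeff ∈ D.S :=
    fun i => D.S.algebraMap_mem (algebraMap A k (r i).leadingCoeff)
  -- parities of the classes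
  have hpar : ∀ i, (∃ j0, ∀ j ∈ RQ P (Q i), Even (B.n j j0)) → ∃ (u : A) (j : ℤ), IsUnit u ∧
      c i = algebraMap A k u * algebraMap A k ϖ ^ (2 * j) := by
    rintro i ⟨j0, hj0⟩
    obtain ⟨u, j, huj⟩ := exists_unit_zpow ϖ hϖ (c i) (hc0 i)
    have h1 : Even j := by
      refine B.cls_even (RQ P (Q i)) (hcardR i) j0 hj0 _ (hlcS i) (hunit _ (hlcr i)) _
        (D.S.algebraMap_mem (c i)) (β i) (hβRS i) (heq i) j ?_
      rw [huj]
      exact hkunit u u.isUnit j
    obtain ⟨j', rfl⟩ := h1
    exact ⟨u, j', u.isUnit, by rw [huj, two_mul]⟩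
  refine ⟨fun hm => ?_, fun hm => ?_⟩
  · intro i
    have hne : Nonempty (Rt P) := Fintype.card_pos_iff.1 (by rw [hcardX]; omega)
    obtain ⟨j0⟩ := hne
    exact hpar i ⟨j0, fun j _ => B.even hOk hm j j0⟩
  · obtain ⟨r0, hr0π, hodd, heven⟩ := B.odd hOk hm
    have hfix : φ (r0 : algebraicClosure k Ω) = r0 := by
      rw [hπ]
      exact congrArg Subtype.val hr0π
    obtain ⟨b, hb⟩ := lift_of_fixed V hVa hVm φ hφq r0 (hθV r0) hfix
    have hroot0 : P.eval (r0 : algebraicClosure k Ω) = 0 := by
      have h := r0.2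
      rw [Multiset.mem_toFinset, mem_roots hP0] at h
      exact h
    have hex : ∀ θ, P.eval θ = 0 → ∃ i, (Q i).eval θ = 0 := by
      intro θ hθ
      rw [hPQ, eval_prod, Finset.prod_eq_zero_iff] at hθ
      obtain ⟨i, -, hi⟩ := hθ
      exact ⟨i, hi⟩
    obtain ⟨i, hi⟩ := hex _ hroot0
    have hsepP : P.Separable := (nodup_roots_iff_of_splits hP0 (IsAlgClosed.splits P)).1 hnd
    have hnotin : ∀ l, l ≠ i → r0 ∉ RQ P (Q l) := by
      intro l hl h
      rw [mem_RQ] at h
      have h1 : Q i * ∏ l ∈ Finset.univ.erase i, Q l = P := by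
        rw [hPQ, Finset.mul_prod_erase Finset.univ Q (Finset.mem_univ i)]
      rw [← h1] at hsepP
      have h3 : IsCoprime (Q i) (Q l) := hsepP.isCoprime.of_isCoprime_of_dvd_right
        (Finset.dvd_prod_of_mem Q (Finset.mem_erase.2 ⟨hl, Finset.mem_univ l⟩))
      obtain ⟨s, t, hst⟩ := h3
      have h5 := congrArg (Polynomial.eval (r0 : algebraicClosure k Ω)) hst
      rw [eval_add, eval_mul, eval_mul, hi, h, mul_zero, mul_zero, add_zero, eval_one] at h5
      exact zero_ne_one h5
    have hj0 : ∃ j0 : Rt P, j0 ≠ r0 := by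
      by_contra hcon
      push Not at hcon
      have h1 : Fintype.card (Rt P) ≤ 1 := Fintype.card_le_one_iff.2 fun a b => by
        rw [hcon a, hcon b]
      rw [hcardX] at h1
      omega
    obtain ⟨j0, hj0⟩ := hj0
    refine ⟨b, i, ?_, ?_⟩
    · apply hmem_max
      have h1 := eval_congr V hVa (r i) b r0 (hθV r0) hb
      rw [hi, sub_zero] at h1
      exact h1
    · intro l hl
      obtain ⟨u, j, hu, huj⟩ := hpar l ⟨j0, fun j hj => heven j j0 (by
        rintro rfl
        exact hnotin l hl hj) hj0⟩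
      obtain ⟨ρ, hρφ, hρ⟩ := B.cls_symbol hOk hSq r0 hr0π hodd (RQ P (Q l)) (hnotin l hl) (hRπ l)
        (hcardR l) _ (hunit _ (hlcr l)) (φ.commutes (algebraMap A k (r l).leadingCoeff))
        (algebraMap k (algebraicClosure k Ω) (c l)) (β l) (hβ l φ) (heq l) j
      have hev0 : algebraMap A (algebraicClosure k Ω) (r l).leadingCoeff *
          ∏ i ∈ RQ P (Q l), (B.θ r0 - B.θ i) = (Q l).eval (r0 : algebraicClosure k Ω) := by
        have h1 := RQ_eval₂ P (Q l) hP0 (hQP l) hnd (RingHom.id (algebraicClosure k Ω)) r0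
        rw [eval₂_id, hlcQ] at h1
        exact h1.symm
      have hcu' : algebraMap k (algebraicClosure k Ω) (c l) / D.p ^ (2 * j) =
          algebraMap A (algebraicClosure k Ω) u := by
        rw [huj, map_mul, map_zpow₀, hpk, ← IsScalarTower.algebraMap_apply]
        have h3 : p ^ (2 * j) ≠ 0 := zpow_ne_zero _ hp0
        exact mul_div_cancel_right₀ _ h3
      rw [hev0, hcu'] at hρ
      have hQV : (Q l).eval (r0 : algebraicClosure k Ω) ∈ V := by
        have h1 := eval_congr V hVa (r l) b r0 (hθV r0) hb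
        have h3 : (Q l).eval (r0 : algebraicClosure k Ω) =
            algebraMap A (algebraicClosure k Ω) ((r l).eval b) -
            (algebraMap A (algebraicClosure k Ω) ((r l).eval b) - (Q l).eval ↑r0) := by ring
        rw [h3]
        exact sub_mem (hVa _) (V.nonunits_subset h1)
      have hρV : ρ ∈ V := by
        refine mem_of_pow_mem (n := 2) (by norm_num) ?_
        rw [hρ]
        exact mul_mem (hVa _) hQV
      obtain ⟨e, he⟩ := lift_of_fixed V hVa hVm φ hφq ρ hρV hρφ
      refine ⟨u, e, j, hu, huj, ?_⟩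
      apply hmem_max
      have h1 := eval_congr V hVa (r l) b r0 (hθV r0) hb
      have h3 : algebraMap A (algebraicClosure k Ω) (u * (r l).eval b - e ^ 2) =
          algebraMap A (algebraicClosure k Ω) u *
            (algebraMap A (algebraicClosure k Ω) ((r l).eval b) - (Q l).eval ↑r0) +
          (-(algebraMap A (algebraicClosure k Ω) e + ρ)) *
            (algebraMap A (algebraicClosure k Ω) e - ρ) := by
        rw [map_sub, map_mul, map_pow]
        linear_combination -hρ
      rw [h3]
      exact add_mem (nonunit_mul (hVa _) h1) (nonunit_mul (neg_mem (add_mem (hVa _) hρV)) he)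

theorem secloc : SECLOC.{u, v, w} := secloc' allA7 allA8

end Pool.Agent.W623.SecE
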