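import Pool.Agent.W623.SecE.Sym

/-! # Local properties of the square classes -/

namespace Pool.Agent.W623.SecC

open Pool.Agent.W620.SC Polynomial Pool.Agent.W623.SecE

universe u v

namespace Dat

variable {k : Type*} {A : Type u} {M : Type v} [Field k] [Field A] [Field M] [Algebra k A]
  {D : Dat k A M} {X : Type*} [Fintype X] [DecidableEq X] (B : D.Br X)

namespace Br

variable [CharZero k] [IsAlgClosed A] [Algebra.IsAlgebraic k A]

theorem cls_even (R : Finset X) (hcard : Even R.card) (j0 : X) (hpar : ∀ i ∈ R, Even (B.n i j0))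
    (lc : A) (hlcS : lc ∈ D.S) (hlcU : IsU D.V lc) (c : A) (hcS : c ∈ D.S) (β : M) (hβ : β ∈ D.RS)
    (h : D.ι c * β ^ 2 = D.ι lc * ∏ i ∈ R, (B.x - D.ι (B.θ i))) (j : ℤ)
    (hj : IsU D.V (c / D.p ^ j)) : Even j := by
  have hβ0 : β ≠ 0 := by
    rintro rfl
    rw [zero_pow (by norm_num), mul_zero] at h
    exact mul_ne_zero ((_root_.map_ne_zero _).2 hlcU.1)
      (Finset.prod_ne_zero_iff.2 fun i _ => B.ne i) h.symm
  have h1 := (Par.const_unit hlcS hlcU).mul (Par.prod (D := D) R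
    (fun i => (B.x - D.ι (B.θ i)) / (B.x - D.ι (B.θ j0))) (fun i => B.n i j0)
    (fun i _ => B.hn i j0))
  obtain ⟨m, hm⟩ := hcard
  have h2 := h1.mul (Par.sq (D := D) (u := (B.x - D.ι (B.θ j0)) ^ m) (pow_mem (B.mem j0) _)
    (pow_ne_zero _ (B.ne j0)))
  have h3 : (D.ι lc * ∏ i ∈ R, ((B.x - D.ι (B.θ i)) / (B.x - D.ι (B.θ j0)))) *
      ((B.x - D.ι (B.θ j0)) ^ m) ^ 2 = D.ι c * β ^ 2 := by
    rw [Finset.prod_div_distrib, Finset.prod_const, hm, h, ← pow_mul, mul_two]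
    have := pow_ne_zero (m + m) (B.ne j0)
    field_simp
  rw [h3] at h2
  have h4 := (Par.const hcS hj).mul (Par.sq (D := D) hβ hβ0)
  have h5 := h4.unique h2
  apply zmod2_even
  push_cast at h5
  rw [add_zero, zero_add, add_zero] at h5
  rw [h5]
  exact Finset.sum_eq_zero fun i hi => zmod2_of_even (hpar i hi)

theorem cls_symbol {q : ℕ} (hD : D.Ok q) (hS : D.HasSq) (r : X) (hr : B.π r = r)
    (hodd : ∀ i, i ≠ r → Odd (B.n i r)) (R : Finset X) (hrR : r ∉ R)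
    (hR : ∀ i, i ∈ R ↔ B.π i ∈ R) (hcard : Even R.card)
    (lc : A) (hlcU : IsU D.V lc) (hlcφ : D.φ lc = lc) (c : A)
    (β : M) (hβφ : D.s D.φ β = β)
    (h : D.ι c * β ^ 2 = D.ι lc * ∏ i ∈ R, (B.x - D.ι (B.θ i))) (j : ℤ) :
    ∃ ρ : A, D.φ ρ = ρ ∧ ρ ^ 2 = c / D.p ^ (2 * j) * (lc * ∏ i ∈ R, (B.θ r - B.θ i)) := by
  obtain ⟨g, hg, hgφ, hg2⟩ := B.symbol hD hS r hr hodd R hrR hR hcard
  have hβ0 : β ≠ 0 := by
    rintro rfl
    rw [zero_pow (by norm_num), mul_zero] at h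
    exact mul_ne_zero ((_root_.map_ne_zero _).2 hlcU.1)
      (Finset.prod_ne_zero_iff.2 fun i _ => B.ne i) h.symm
  set w := lc * ∏ i ∈ R, (B.θ r - B.θ i) with hw
  have hw0 : w ≠ 0 := by
    refine mul_ne_zero hlcU.1 (Finset.prod_ne_zero_iff.2 fun i hi => ?_)
    have hne : r ≠ i := by
      rintro rfl
      exact hrR hi
    exact (B.hθd _ _ hne).1
  have hprod0 : D.ι (∏ i ∈ R, (B.θ r - B.θ i)) ≠ 0 :=
    (_root_.map_ne_zero _).2 (right_ne_zero_of_mul hw0)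
  have h1 : D.ι c * β ^ 2 = D.ι w * g ^ 2 := by
    rw [h, hg2, hw, map_mul, Finset.prod_div_distrib, ← map_prod]
    field_simp
  have h2 : (g / β) ^ 2 = D.ι (c / w) := by
    have h3 : D.ι w ≠ 0 := (_root_.map_ne_zero _).2 hw0
    rw [div_pow, map_div₀, div_eq_div_iff (pow_ne_zero _ hβ0) h3]
    linear_combination -h1
  obtain ⟨a, ha⟩ := root_mem D.ι (n := 2) (by norm_num) h2
  have ha2 : a ^ 2 = c / w := by
    apply D.ι.injective
    rw [map_pow, ha, h2]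
  have haφ : D.φ a = a := by
    apply D.ι.injective
    rw [← D.hι, ha, map_div₀, hgφ, hβφ]
  have hwφ : D.φ w = w := by
    rw [hw, map_mul, hlcφ, map_prod]
    congr 1
    refine Finset.prod_bij (fun i _ => B.π i) (fun i hi => (hR i).1 hi)
      (fun i _ j _ h => B.π.injective h) (fun j hj => ⟨B.π.symm j, ?_, B.π.apply_symm_apply j⟩)
      (fun i _ => ?_)
    · rw [hR, B.π.apply_symm_apply]
      exact hj
    · rw [map_sub, B.hπ, B.hπ, hr]
  refine ⟨a * w / D.p ^ j, ?_, ?_⟩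
  · have h5 : D.φ D.p = D.p := D.φ.commutes _
    rw [map_div₀, map_mul, map_zpow₀, haφ, hwφ, h5]
  · have h5 : D.p ^ (2 * j) = (D.p ^ j) ^ 2 := by
      rw [mul_comm, zpow_mul, zpow_ofNat]
    have h6 : D.p ^ j ≠ 0 := zpow_ne_zero _ D.p0
    rw [h5, div_pow, mul_pow, ha2]
    field_simp

end Br

end Dat

end Pool.Agent.W623.SecC
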