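import Pool.Agent.W623.SecC.Unr
import Pool.Agent.W623.SecE.Cls

/-! # Square roots in the maximal unramified extension -/

namespace Pool.Agent.W623.SecC

open Pool.Agent.W620.SC Polynomial IntermediateField

universe u v w

section loc

variable {Ω : Type*} [Field Ω]

lemma sum_local {A : Type*} [Field A] (j : A →+* Ω) (W : ValuationSubring Ω) (hW : ∀ c, j c ∈ W)
    (h2 : (2 : A) ≠ 0) (a c : Ω) (s : A) (hs : s ≠ 0) (ha : a ^ 2 - c ^ 2 = j s) :
    (c ∈ W → IsU W (a + c)) ∧
      (c ∉ W → c ≠ 0 ∧ (IsU W ((a + c) / c) ∨ IsU W ((a + c) * c))) := by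
  have hconst : ∀ a : A, a ≠ 0 → IsU W (j a) := fun a ha =>
    ⟨(_root_.map_ne_zero j).2 ha, hW a, by rw [← map_inv₀]; exact hW _⟩
  constructor
  · intro hc
    have h1 : a ^ 2 ∈ W := by
      have h3 : a ^ 2 = j s + c ^ 2 := by rw [← ha]; ring
      rw [h3]
      exact add_mem (hW _) (pow_mem hc _)
    have h3 := mem_of_pow_mem (n := 2) (by norm_num) h1
    refine isU_of_mul (add_mem h3 hc) (sub_mem h3 hc) ?_
    have h5 : (a + c) * (a - c) = j s := by rw [← ha]; ring
    rw [h5]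
    exact hconst s hs
  · intro hc
    have hc0 : c ≠ 0 := by
      rintro rfl
      exact hc (zero_mem _)
    refine ⟨hc0, ?_⟩
    have hcn : c⁻¹ ∈ W.nonunits := (W.inv_mem_nonunits_iff).2 (Or.inr hc)
    have hcn2 : j s * (c⁻¹ * c⁻¹) ∈ W.nonunits :=
      nonunit_mul (hW s) (nonunit_mul (W.nonunits_subset hcn) hcn)
    have hm : a / c ∈ W := by
      refine mem_of_pow_mem (n := 2) (by norm_num) ?_
      have h3 : (a / c) ^ 2 = 1 + j s * (c⁻¹ * c⁻¹) := by
        field_simp
        rw [← ha]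
        ring
      rw [h3]
      exact add_mem (one_mem _) (W.nonunits_subset hcn2)
    by_cases hn : a / c + 1 ∈ W.nonunits
    · right
      have h3 : IsU W (a / c - 1) := by
        have h5 : a / c - 1 = -j 2 + (a / c + 1) := by
          rw [map_ofNat]
          ring
        rw [h5]
        exact isU_add_nonunit (hconst 2 h2).neg hn
      have h5 : (a + c) * c = j s / (a / c - 1) := by
        have h6 := h3.1
        rw [eq_div_iff h6, ← ha]
        field_simp
        ring
      rw [h5]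
      exact (hconst s hs).div h3
    · left
      have h3 : (a + c) / c = a / c + 1 := by
        field_simp
      rw [h3]
      exact isU_of_not_nonunit (add_mem hm (one_mem _)) hn

lemma sq_local {A : Type*} [Field A] (j : A →+* Ω) (W : ValuationSubring Ω) (hW : ∀ c, j c ∈ W)
    (h2 : (2 : A) ≠ 0) (a b c : Ω) (s t : A) (hs : s ≠ 0) (ht : t ≠ 0)
    (ha : a ^ 2 - c ^ 2 = j s) (hb : b ^ 2 - c ^ 2 = j t) :
    ∃ τ : Ω, (τ = 1 ∨ τ = c ∨ τ = c⁻¹) ∧ τ ≠ 0 ∧ (a + c) * (b + c) / τ ^ 2 ∈ W ∧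
      τ ^ 2 / ((a + c) * (b + c)) ∈ W := by
  have hsuff : ∀ t : Ω, IsU W ((a + c) * (b + c) / t ^ 2) →
      (a + c) * (b + c) / t ^ 2 ∈ W ∧ t ^ 2 / ((a + c) * (b + c)) ∈ W := by
    intro t h
    refine ⟨h.2.1, ?_⟩
    have := h.2.2
    rwa [inv_div] at this
  obtain ⟨h1, h1'⟩ := sum_local j W hW h2 a c s hs ha
  obtain ⟨h3, h3'⟩ := sum_local j W hW h2 b c t ht hb
  by_cases hc : c ∈ W
  · refine ⟨1, Or.inl rfl, one_ne_zero, hsuff 1 ?_⟩
    rw [one_pow, div_one]
    exact (h1 hc).mul (h3 hc)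
  · obtain ⟨hc0, h1''⟩ := h1' hc
    obtain ⟨-, h3''⟩ := h3' hc
    rcases h1'' with h5 | h5 <;> rcases h3'' with h6 | h6
    · refine ⟨c, Or.inr (Or.inl rfl), hc0, hsuff c ?_⟩
      have := h5.mul h6
      convert this using 1
      field_simp
    · refine ⟨1, Or.inl rfl, one_ne_zero, hsuff 1 ?_⟩
      have := h5.mul h6
      convert this using 1
      field_simp
    · refine ⟨1, Or.inl rfl, one_ne_zero, hsuff 1 ?_⟩
      have := h5.mul h6
      convert this using 1
      field_simp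
    · refine ⟨c⁻¹, Or.inr (Or.inr rfl), inv_ne_zero hc0, hsuff c⁻¹ ?_⟩
      have := h5.mul h6
      convert this using 1
      field_simp

end loc

variable {k : Type u} {F : Type v} {Ω : Type w} [Field k] [Field F] [Field Ω] [Algebra k F]
  [Algebra F Ω] [Algebra k Ω] [IsScalarTower k F Ω]

lemma const_place [IsAlgClosed Ω] (U : Set (ValuationSubring F))
    (hU : ∀ O ∈ U, ∀ c : k, algebraMap k F c ∈ O) (W : ValuationSubring Ω)
    (hW : W.comap (algebraMap F Ω) ∈ U) (c : algebraicClosure k Ω) :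
    algebraMap (algebraicClosure k Ω) Ω c ∈ W := by
  refine const_mem (k := k) ?_ c.2
  intro c
  rw [IsScalarTower.algebraMap_apply k F Ω]
  exact hU _ hW c

/-- square roots of the ratios -/
lemma ratio_root [IsAlgClosed Ω] (U : Set (ValuationSubring F))
    (hU : ∀ O ∈ U, ∀ c : k, algebraMap k F c ∈ O) {X : Type*} [Fintype X] [DecidableEq X]
    (θ : X → algebraicClosure k Ω) (hθ : Function.Injective θ) (x y : F) (hy0 : y ≠ 0)
    (c : algebraicClosure k Ω) (hc0 : c ≠ 0)
    (hxy : (c : Ω) * algebraMap F Ω y ^ 2 = ∏ i, (algebraMap F Ω x - (θ i : Ω)))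
    (htr : ∀ a : algebraicClosure k Ω, (a : Ω) ≠ algebraMap F Ω x) (i i' : X) :
    ∃ α : unramified F Ω U, α ^ 2 = (algebraMap F (unramified F Ω U) x - constHom hU (θ i)) /
      (algebraMap F (unramified F Ω U) x - constHom hU (θ i')) := by
  have hyΩ : algebraMap F Ω y ≠ 0 := (_root_.map_ne_zero _).2 hy0
  by_cases hii : i = i'
  · subst hii
    refine ⟨1, ?_⟩
    rw [one_pow, div_self]
    intro h
    refine htr (θ i) ?_
    have h1 := congrArg (algebraMap (unramified F Ω U) Ω) (sub_eq_zero.1 h)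
    exact h1.symm
  · have hval : (((algebraMap F (unramified F Ω U) x - constHom hU (θ i)) /
        (algebraMap F (unramified F Ω U) x - constHom hU (θ i')) : unramified F Ω U) : Ω) =
        (algebraMap F Ω x - algebraMap (algebraicClosure k Ω) Ω (θ i)) /
          (algebraMap F Ω x - algebraMap (algebraicClosure k Ω) Ω (θ i')) := by
      change algebraMap (unramified F Ω U) Ω ((algebraMap F (unramified F Ω U) x -
        constHom hU (θ i)) / (algebraMap F (unramified F Ω U) x - constHom hU (θ i'))) = _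
      rw [map_div₀, map_sub, map_sub]
      rfl
    refine exists_root_unramified (k := k) U hU (n := 2) (by norm_num) _ ?_
    intro hne W hW
    rw [hval] at hne ⊢
    obtain ⟨t, ht, ht0, h3, h4⟩ := ratio_local (algebraMap (algebraicClosure k Ω) Ω) W
      (const_place U hU W hW) θ hθ (algebraMap F Ω x) (algebraMap F Ω y) hyΩ c hc0 hxy i i' hii hne
    refine ⟨t, ?_, ht0, h3, h4⟩
    rcases ht with rfl | rfl | rfl
    · exact one_mem _
    · exact IntermediateField.algebraMap_mem _ y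
    · exact inv_mem (IntermediateField.algebraMap_mem _ y)

/-- square roots of the products of sums -/
lemma sum_root [CharZero k] [IsAlgClosed Ω] (U : Set (ValuationSubring F))
    (hU : ∀ O ∈ U, ∀ c : k, algebraMap k F c ∈ O) (a b c : unramified F Ω U)
    (s t : algebraicClosure k Ω) (hs : s ≠ 0) (ht : t ≠ 0)
    (ha : a ^ 2 - c ^ 2 = constHom hU s) (hb : b ^ 2 - c ^ 2 = constHom hU t) :
    ∃ α : unramified F Ω U, α ^ 2 = (a + c) * (b + c) := by
  have hch : CharZero (algebraicClosure k Ω) :=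
    charZero_of_injective_algebraMap (algebraMap k (algebraicClosure k Ω)).injective
  refine exists_root_unramified (k := k) U hU (n := 2) (by norm_num) _ ?_
  intro hne W hW
  obtain ⟨τ, hτ, hτ0, h3, h4⟩ := sq_local (algebraMap (algebraicClosure k Ω) Ω) W
    (const_place U hU W hW) two_ne_zero (a : Ω) (b : Ω) (c : Ω) s t hs ht
    (congrArg (algebraMap (unramified F Ω U) Ω) ha) (congrArg (algebraMap (unramified F Ω U) Ω) hb)
  refine ⟨τ, ?_, hτ0, h3, h4⟩
  rcases hτ with rfl | rfl | rfl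
  · exact one_mem _
  · exact c.2
  · exact inv_mem c.2

section mk

variable [CharZero k] [IsAlgClosed Ω] [Algebra.IsAlgebraic F Ω]
    (U : Set (ValuationSubring F)) (hU : ∀ O ∈ U, ∀ c : k, algebraMap k F c ∈ O)
    (G : GSection k F Ω U) (V : ValuationSubring (algebraicClosure k Ω))
    (S : IntermediateField k (algebraicClosure k Ω)) (ϖ : k) (ϖ0 : ϖ ≠ 0)
    (ϖn : algebraMap k (algebraicClosure k Ω) ϖ ∈ V.nonunits)
    (sq : ∀ η ∈ S, IsU V η → ∀ ρ : algebraicClosure k Ω, ρ ^ 2 = η → ρ ∈ S)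
    (tame : ∀ c ∈ S, c ≠ 0 → ∃ j : ℤ, IsU V (c / algebraMap k (algebraicClosure k Ω) ϖ ^ j))
    (φ : algebraicClosure k Ω ≃ₐ[k] algebraicClosure k Ω) (φV : ∀ x, φ x ∈ V ↔ x ∈ V)
    (φS : ∀ x, φ x ∈ S ↔ x ∈ S)

/-- the roots of the generators -/
lemma mk_roots (hA7 : PartA7.{w, w}) :
    (mkDat U hU G V S ϖ ϖ0 ϖn sq tame φ φV φS).HasRoots := by
  set D := mkDat U hU G V S ϖ ϖ0 ϖn sq tame φ φV φS with hD
  intro z w e W hWe hzw htrS n x' y' hxy' f hf
  have hzw'' : W.polynomial.eval₂ (eval₂RingHom ((algebraMap (unramified F Ω U) Ω).comp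
      (D.ι.comp (algebraMap D.S (algebraicClosure k Ω)))) (z : Ω)) (w : Ω) = 0 := by
    have h3 := congrArg (algebraMap (unramified F Ω U) Ω) hzw
    rw [hom_eval₂, map_zero] at h3
    rw [← h3]
    congr 1
    ext a
    · simp
    · simp
  have hev : algebraMap (unramified F Ω U) Ω (ev W (D.ι.comp (algebraMap D.S (algebraicClosure k Ω))) z w hzw f) =
      ev W ((algebraMap (unramified F Ω U) Ω).comp (D.ι.comp (algebraMap D.S (algebraicClosure k Ω)))) (z : Ω)
        (w : Ω) hzw'' f :=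
    ev_map W _ _ _ hzw (algebraMap (unramified F Ω U) Ω) _ _ _ hzw'' rfl rfl rfl f
  refine exists_root_unramified (k := k) U hU (by positivity) _ ?_
  intro hne O hO
  obtain ⟨t, ht, ht0, h3, h4⟩ := hA7 D.S Ω ((algebraMap (unramified F Ω U) Ω).comp
      (D.ι.comp (algebraMap D.S (algebraicClosure k Ω)))) O
      (fun c => const_place U hU O hO (c : algebraicClosure k Ω))
      e W hWe (z : Ω) (w : Ω) hzw'' (by
        intro P hP h
        apply htrS P hP
        apply (algebraMap (unramified F Ω U) Ω).injective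
        rw [hom_eval₂, map_zero]
        exact h) (2 ^ n) x' y' hxy' f hf
  refine ⟨t, ?_, ht0, ?_, ?_⟩
  · rcases ht with rfl | rfl | rfl
    · exact sub_mem z.2 (D.ι _).2
    · exact sub_mem w.2 (D.ι _).2
    · exact div_mem w.2 z.2
  · change algebraMap (unramified F Ω U) Ω _ / _ ∈ O
    rw [hev]
    exact h3
  · change _ / algebraMap (unramified F Ω U) Ω _ ∈ O
    rw [hev]
    exact h4

lemma mk_ok (hA7 : PartA7.{w, w}) (hA8 : PartA8.{w, w})
    (h2 : (2 : algebraicClosure k Ω)⁻¹ ∈ V) (q : ℕ) (hq2 : 2 ≤ q)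
    (hq : ∀ x ∈ V, φ x - x ^ q ∈ V.nonunits) :
    (mkDat U hU G V S ϖ ϖ0 ϖn sq tame φ φV φS).Ok q :=
  ⟨hA8, h2, hq2, hq, mk_roots U hU G V S ϖ ϖ0 ϖn sq tame φ φV φS hA7⟩

lemma mk_sq : (mkDat U hU G V S ϖ ϖ0 ϖn sq tame φ φV φS).HasSq :=
  fun a b c s t hs ht ha hb => sum_root U hU a b c s t hs ht ha hb

/-- the branch points -/
noncomputable def mkBr {X : Type*} [Fintype X] [DecidableEq X] (hX : Even (Fintype.card X))
    (hX4 : 4 ≤ Fintype.card X) (θ : X → algebraicClosure k Ω) (hθS : ∀ i, θ i ∈ S)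
    (hθd : ∀ i j, i ≠ j → IsU V (θ i - θ j)) (π : Equiv.Perm X)
    (hπ : ∀ i, φ (θ i) = θ (π i)) (x y : F) (hy0 : y ≠ 0) (c : algebraicClosure k Ω) (hcS : c ∈ S)
    (jc : ℤ) (hc : IsU V (c / algebraMap k (algebraicClosure k Ω) ϖ ^ jc))
    (hxy : (c : Ω) * algebraMap F Ω y ^ 2 = ∏ i, (algebraMap F Ω x - (θ i : Ω)))
    (htr : ∀ a : algebraicClosure k Ω, (a : Ω) ≠ algebraMap F Ω x) :
    (mkDat U hU G V S ϖ ϖ0 ϖn sq tame φ φV φS).Br X where
  hX := hX
  hX4 := hX4
  θ := θ
  hθS := hθS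
  hθd := hθd
  π := π
  hπ := hπ
  x := algebraMap F (unramified F Ω U) x
  y := algebraMap F (unramified F Ω U) y
  hx := fun σ => (G.toHom σ).commutes x
  hy := fun σ => (G.toHom σ).commutes y
  hy0 := (_root_.map_ne_zero _).2 hy0
  c := c
  hcS := hcS
  jc := jc
  hc := hc
  hxy := by
    apply (algebraMap (unramified F Ω U) Ω).injective
    rw [map_mul, map_pow, map_prod]
    exact hxy
  htr := fun a h => htr a (congrArg (algebraMap (unramified F Ω U) Ω) h)
  hsq := fun i j => ratio_root U hU θ (by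
    intro i j hij
    by_contra hne
    exact (hθd i j hne).1 (sub_eq_zero.2 hij)) x y hy0 c (by
    rintro rfl
    rw [zero_div] at hc
    exact hc.1 rfl) hxy htr i j

end mk

end Pool.Agent.W623.SecC
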