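import Mathlib

/-! # Roots of factors -/

namespace Pool.Agent.W623.SecE

open Polynomial Finset

section rts

variable {kb : Type*} [Field kb]

/-- the roots -/
abbrev Rt (P : kb[X]) [DecidableEq kb] := {θ // θ ∈ P.roots.toFinset}

open Classical in
/-- the roots of a factor -/
noncomputable def RQ (P Q : kb[X]) [DecidableEq kb] : Finset (Rt P) :=
  univ.filter (fun i => Q.IsRoot (i : kb))

variable [DecidableEq kb] (P Q : kb[X])

lemma mem_RQ (i : Rt P) : i ∈ RQ P Q ↔ Q.IsRoot (i : kb) := by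
  unfold RQ
  rw [mem_filter]
  exact ⟨fun h => h.2, fun h => ⟨mem_univ _, h⟩⟩

lemma RQ_map (hP0 : P ≠ 0) (hQP : Q ∣ P) :
    (RQ P Q).map (Function.Embedding.subtype _) = Q.roots.toFinset := by
  have hQ0 : Q ≠ 0 := by
    rintro rfl
    exact hP0 (zero_dvd_iff.1 hQP)
  ext θ
  rw [mem_map, Multiset.mem_toFinset, mem_roots hQ0]
  constructor
  · rintro ⟨i, hi, rfl⟩
    exact (mem_RQ P Q i).1 hi
  · intro h
    have h1 : θ ∈ P.roots.toFinset := by
      rw [Multiset.mem_toFinset, mem_roots hP0]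
      exact h.dvd hQP
    exact ⟨⟨θ, h1⟩, (mem_RQ P Q _).2 h, rfl⟩

variable [IsAlgClosed kb]

lemma RQ_card (hP0 : P ≠ 0) (hQP : Q ∣ P) (hnd : P.roots.Nodup) :
    (RQ P Q).card = Q.natDegree := by
  have hnd' : Q.roots.Nodup := Multiset.nodup_of_le (roots.le_of_dvd hP0 hQP) hnd
  rw [← card_map (Function.Embedding.subtype _), RQ_map P Q hP0 hQP,
    Multiset.toFinset_card_of_nodup hnd']
  exact (IsAlgClosed.splits Q).natDegree_eq_card_roots.symm

lemma RQ_eval₂ (hP0 : P ≠ 0) (hQP : Q ∣ P) (hnd : P.roots.Nodup) {B : Type*} [Field B]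
    (g : kb →+* B) (z : B) :
    Q.eval₂ g z = g Q.leadingCoeff * ∏ i ∈ RQ P Q, (z - g i) := by
  have hnd' : Q.roots.Nodup := Multiset.nodup_of_le (roots.le_of_dvd hP0 hQP) hnd
  have h1 := (IsAlgClosed.splits Q).eq_prod_roots
  have h2 : ∏ i ∈ RQ P Q, (z - g i) = (Q.roots.map (fun θ => z - g θ)).prod := by
    have h3 : ∏ i ∈ RQ P Q, (z - g i) =
        ∏ θ ∈ (RQ P Q).map (Function.Embedding.subtype _), (z - g θ) := by
      rw [prod_map]
      rfl
    rw [h3, RQ_map P Q hP0 hQP, Finset.prod, Multiset.toFinset_val, Multiset.dedup_eq_self.2 hnd']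
  rw [h2]
  conv_lhs => rw [h1]
  rw [eval₂_mul, eval₂_C, ← coe_eval₂RingHom, map_multiset_prod, Multiset.map_map]
  congr 2
  refine Multiset.map_congr rfl fun a _ => ?_
  simp

lemma RQ_self : RQ P P = univ := by
  ext i
  rw [mem_RQ]
  refine ⟨fun _ => mem_univ _, fun _ => ?_⟩
  have h := i.2
  rw [Multiset.mem_toFinset, mem_roots'] at h
  exact h.2

lemma Rt_card (hP0 : P ≠ 0) (hnd : P.roots.Nodup) : Fintype.card (Rt P) = P.natDegree := by
  rw [← RQ_card P P hP0 dvd_rfl hnd, RQ_self, card_univ]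

end rts

end Pool.Agent.W623.SecE
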