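import Pool.Agent.W623.SecE.Unr2
import Pool.Agent.W623.SecE.Rts
import Pool.Agent.W623.SecE.Stm

/-! # Global square classes -/

namespace Pool.Agent.W623.SecE

open Pool.Agent.W620.SC Pool.Agent.W623.SecC Polynomial IntermediateField

universe u v w

variable {k : Type u} {F : Type v} {Ω : Type w} [Field k] [Field F] [Field Ω] [Algebra k F]
  [Algebra F Ω] [Algebra k Ω] [IsScalarTower k F Ω]

lemma sec_cont [CharZero k] [IsAlgClosed Ω] [Algebra.IsAlgebraic F Ω]
    (U : Set (ValuationSubring F)) (G : GSection k F Ω U) (w : unramified F Ω U) :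
    ∃ E : IntermediateField k (algebraicClosure k Ω), FiniteDimensional k E ∧
      ∀ σ ∈ E.fixingSubgroup, G.toHom σ w = w := by
  have h1 : {e : unramified F Ω U ≃ₐ[F] unramified F Ω U | e w = w} ∈
      nhds (1 : unramified F Ω U ≃ₐ[F] unramified F Ω U) := by
    rw [krullTopology_mem_nhds_one_iff]
    refine ⟨F⟮w⟯, ?_, ?_⟩
    · exact adjoin.finiteDimensional (Algebra.IsIntegral.isIntegral _)
    · intro e he
      exact (mem_fixingSubgroup_iff _ _).1 he _ (mem_adjoin_simple_self F _)
  have h2 := G.cont.tendsto 1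
  rw [map_one] at h2
  have h3 := h2 h1
  rw [Filter.mem_map, krullTopology_mem_nhds_one_iff] at h3
  obtain ⟨E, hE, hE'⟩ := h3
  exact ⟨E, hE, fun σ hσ => hE' hσ⟩

/-- elements of `F` which are algebraic over `k` are in `k` if there is a section -/
lemma alg_mem_base [CharZero k] [IsAlgClosed Ω] {U : Set (ValuationSubring F)}
    (G : GSection k F Ω U) (z : F) (hz : IsAlgebraic k z) : ∃ c : k, algebraMap k F c = z := by
  have hac : IsAlgClosure k (algebraicClosure k Ω) := inferInstance
  have : Normal k (algebraicClosure k Ω) := IsAlgClosure.normal k _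
  have hGal : IsGalois k (algebraicClosure k Ω) := ⟨⟩
  have h1 : IsIntegral k (algebraMap F Ω z) := by
    have h2 : IsIntegral k z := isAlgebraic_iff_isIntegral.1 hz
    exact h2.map (IsScalarTower.toAlgHom k F Ω)
  set b : algebraicClosure k Ω := ⟨algebraMap F Ω z, h1⟩ with hb
  have h2 : b ∈ (⊥ : IntermediateField k (algebraicClosure k Ω)) := by
    apply mem_of_fixed
    intro σ _
    apply Subtype.ext
    rw [← G.compat σ b (algebraMap F (unramified F Ω U) z) rfl, (G.toHom σ).commutes]
    rfl
  obtain ⟨c, hc⟩ := IntermediateField.mem_bot.1 h2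
  refine ⟨c, (algebraMap F Ω).injective ?_⟩
  rw [← IsScalarTower.algebraMap_apply]
  exact congrArg Subtype.val hc

theorem secpt : SECPT.{u, v, w} := by
  intro k F Ω _ _ _ _ _ _ _ _ _ _ f a ha U hU G x y hxy hx
  rw [Transcendental, not_not] at hx
  obtain ⟨x', rfl⟩ := alg_mem_base G x hx
  have h1 : y ^ 2 = algebraMap k F (f.eval x' / a) := by
    rw [aeval_algebraMap_apply, aeval_def, Algebra.algebraMap_self, eval₂_id] at hxy
    rw [map_div₀, eq_div_iff ((_root_.map_ne_zero _).2 ha)]
    linear_combination hxy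
  have hy : IsAlgebraic k y := by
    apply IsAlgebraic.of_pow (n := 2) (by norm_num)
    rw [h1]
    exact isAlgebraic_algebraMap _
  obtain ⟨y', rfl⟩ := alg_mem_base G y hy
  refine ⟨x', y', rfl, rfl, (algebraMap k F).injective ?_⟩
  rw [map_mul, map_pow, hxy, aeval_algebraMap_apply, aeval_def, Algebra.algebraMap_self, eval₂_id]

lemma tr_const [IsAlgClosed Ω] {x : F} (hx : Transcendental k x) (a : algebraicClosure k Ω) :
    (a : Ω) ≠ algebraMap F Ω x := by
  intro h
  apply hx
  have h1 : IsAlgebraic k (a : Ω) := isAlgebraic_iff_isIntegral.2 a.2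
  rw [h] at h1
  exact (isAlgebraic_algHom_iff (IsScalarTower.toAlgHom k F Ω) (algebraMap F Ω).injective).1 h1

/-- the equation in terms of the roots -/
lemma eq_roots [IsAlgClosed Ω] (P : (algebraicClosure k Ω)[X]) [DecidableEq (algebraicClosure k Ω)]
    [IsAlgClosed (algebraicClosure k Ω)] (hP0 : P ≠ 0) (hnd : P.roots.Nodup)
    (Q : (algebraicClosure k Ω)[X]) (hQP : Q ∣ P) (g : F[X])
    (hg : g.map (algebraMap F Ω) = Q.map (algebraMap (algebraicClosure k Ω) Ω)) (x : F) :
    algebraMap F Ω (g.eval x) = (Q.leadingCoeff : Ω) *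
      ∏ i ∈ RQ P Q, (algebraMap F Ω x - ((i : algebraicClosure k Ω) : Ω)) := by
  have h1 := RQ_eval₂ P Q hP0 hQP hnd (algebraMap (algebraicClosure k Ω) Ω) (algebraMap F Ω x)
  rw [← eval_map, ← hg, eval_map, eval₂_at_apply] at h1
  exact h1

theorem secglob : SECGLOB.{u, v, w} := by
  classical
  intro k F Ω _ _ _ _ _ _ _ _ _ _ f hf hev a ha U hU G x y hxy hx r hrf hrev
  have hac : IsAlgClosure k (algebraicClosure k Ω) := inferInstance
  have hkb : IsAlgClosed (algebraicClosure k Ω) := hac.1
  have : Normal k (algebraicClosure k Ω) := IsAlgClosure.normal k _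
  have hGal : IsGalois k (algebraicClosure k Ω) := ⟨⟩
  have htr := tr_const (k := k) (Ω := Ω) hx
  have hf0 : f ≠ 0 := hf.ne_zero
  have hr0 : r ≠ 0 := by
    rintro rfl
    exact hf0 (zero_dvd_iff.1 hrf)
  have hfx0 : aeval x f ≠ 0 := fun h => hf0 ((transcendental_iff.1 hx) f h)
  have hy0 : y ≠ 0 := by
    rintro rfl
    rw [zero_pow (by norm_num), mul_zero] at hxy
    exact hfx0 hxy.symm
  set P := f.map (algebraMap k (algebraicClosure k Ω)) with hP
  set Q := r.map (algebraMap k (algebraicClosure k Ω)) with hQ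
  have hP0 : P ≠ 0 := (Polynomial.map_ne_zero_iff (algebraMap k _).injective).2 hf0
  have hQP : Q ∣ P := Polynomial.map_dvd _ hrf
  have hnd : P.roots.Nodup := nodup_roots hf.map
  have hcomp : ∀ g : k[X], (g.map (algebraMap k F)).map (algebraMap F Ω) =
      (g.map (algebraMap k (algebraicClosure k Ω))).map
        (algebraMap (algebraicClosure k Ω) Ω) := by
    intro g
    rw [Polynomial.map_map, Polynomial.map_map, ← IsScalarTower.algebraMap_eq,
      ← IsScalarTower.algebraMap_eq]
  have heval : ∀ g : k[X], (g.map (algebraMap k F)).eval x = aeval x g := by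
    intro g
    rw [eval_map_algebraMap]
  -- the equation
  have hlcP : P.leadingCoeff = algebraMap k _ f.leadingCoeff :=
    leadingCoeff_map_of_injective (algebraMap k _).injective f
  have hlcQ : Q.leadingCoeff = algebraMap k _ r.leadingCoeff :=
    leadingCoeff_map_of_injective (algebraMap k _).injective r
  have hlcf0 : f.leadingCoeff ≠ 0 := leadingCoeff_ne_zero.2 hf0
  set c : algebraicClosure k Ω := algebraMap k _ (a / f.leadingCoeff) with hc
  have hc0 : c ≠ 0 := (_root_.map_ne_zero _).2 (div_ne_zero ha hlcf0)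
  have hxyΩ : (c : Ω) * algebraMap F Ω y ^ 2 =
      ∏ i : Rt P, (algebraMap F Ω x - ((i : algebraicClosure k Ω) : Ω)) := by
    have h1 := eq_roots P hP0 hnd P dvd_rfl _ (hcomp f) x
    rw [heval, ← hxy, RQ_self, map_mul, map_pow, ← IsScalarTower.algebraMap_apply] at h1
    have h3 : ((P.leadingCoeff : algebraicClosure k Ω) : Ω) ≠ 0 := by
      change algebraMap (algebraicClosure k Ω) Ω P.leadingCoeff ≠ 0
      exact (_root_.map_ne_zero _).2 (leadingCoeff_ne_zero.2 hP0)
    have h5 : (c : Ω) = algebraMap k Ω a / ((P.leadingCoeff : algebraicClosure k Ω) : Ω) := by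
      change algebraMap (algebraicClosure k Ω) Ω c = _ / algebraMap (algebraicClosure k Ω) Ω _
      rw [hc, hlcP, map_div₀, map_div₀, ← IsScalarTower.algebraMap_apply]
    rw [h5, div_mul_eq_mul_div, h1, mul_div_cancel_left₀ _ h3]
  have hθinj : Function.Injective (fun i : Rt P => (i : algebraicClosure k Ω)) :=
    Subtype.val_injective
  have hroot := fun i i' => ratio_root U hU (fun i : Rt P => (i : algebraicClosure k Ω)) hθinj x y
    hy0 c hc0 hxyΩ htr i i'
  -- the square root
  have hrx0 : aeval x r ≠ 0 := fun h => hr0 ((transcendental_iff.1 hx) r h)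
  have hrM : algebraMap F (unramified F Ω U) (aeval x r) = constHom hU Q.leadingCoeff *
      ∏ i ∈ RQ P Q, (algebraMap F (unramified F Ω U) x -
        constHom hU (i : algebraicClosure k Ω)) := by
    apply (algebraMap (unramified F Ω U) Ω).injective
    rw [map_mul, map_prod]
    have h1 := eq_roots P hP0 hnd Q hQP _ (hcomp r) x
    rw [heval] at h1
    exact h1
  have hneM : ∀ i : Rt P, algebraMap F (unramified F Ω U) x -
      constHom hU (i : algebraicClosure k Ω) ≠ 0 := by
    intro i h
    refine htr i ?_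
    exact (congrArg (algebraMap (unramified F Ω U) Ω) (sub_eq_zero.1 h)).symm
  have hα : ∃ α : unramified F Ω U, α ^ 2 = algebraMap F (unramified F Ω U) (aeval x r) := by
    obtain ⟨l, hl⟩ := IsAlgClosed.exists_pow_nat_eq Q.leadingCoeff (n := 2) (by norm_num)
    rcases Finset.eq_empty_or_nonempty (RQ P Q) with he | ⟨j0, -⟩
    · refine ⟨constHom hU l, ?_⟩
      rw [hrM, he, Finset.prod_empty, mul_one, ← map_pow, hl]
    · choose α hα using fun i => hroot i j0
      have hcard : Even (RQ P Q).card := by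
        rw [RQ_card P Q hP0 hQP hnd, hQ, natDegree_map]
        exact hrev
      obtain ⟨m, hm⟩ := hcard
      refine ⟨constHom hU l * (∏ i ∈ RQ P Q, α i) *
        (algebraMap F (unramified F Ω U) x - constHom hU (j0 : algebraicClosure k Ω)) ^ m, ?_⟩
      have h1 : (algebraMap F (unramified F Ω U) x -
          constHom hU (j0 : algebraicClosure k Ω)) ^ (m + m) ≠ 0 := pow_ne_zero _ (hneM j0)
      rw [hrM, mul_pow, mul_pow, ← map_pow, hl, ← Finset.prod_pow,
        Finset.prod_congr rfl (fun i _ => hα i), Finset.prod_div_distrib, Finset.prod_const, hm,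
        ← pow_mul, mul_two]
      field_simp
  obtain ⟨α, hα⟩ := hα
  have hα0 : α ≠ 0 := by
    rintro rfl
    rw [zero_pow (by norm_num)] at hα
    exact (_root_.map_ne_zero _).2 hrx0 hα.symm
  set s : (algebraicClosure k Ω ≃ₐ[k] algebraicClosure k Ω) →* RingAut (unramified F Ω U) :=
    (toRingAutHom F (unramified F Ω U)).comp G.toHom with hs
  have hsa : ∀ σ z, s σ z = G.toHom σ z := fun σ z => rfl
  have hι : ∀ σ b, s σ (constHom hU b) = constHom hU (σ b) := fun σ b =>
    Subtype.ext (G.compat σ b (constHom hU b) rfl)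
  obtain ⟨E, hE, hE'⟩ := sec_cont U G α
  obtain ⟨b, hb0, hb⟩ := exists_fixed_multiple s (constHom hU) hι ⊤ α hα0 (by
    intro σ _
    have h1 : (s σ α / α) ^ 2 = constHom hU 1 := by
      rw [div_pow, ← map_pow, hα, hsa, (G.toHom σ).commutes, div_self, map_one]
      exact (_root_.map_ne_zero _).2 hrx0
    obtain ⟨ζ, hζ⟩ := root_mem (constHom hU) (n := 2) (by norm_num) h1
    exact ⟨ζ, by rw [hζ, div_mul_cancel₀ _ hα0]⟩) E hE'
  have hb2 : b ^ 2 ∈ (⊥ : IntermediateField k (algebraicClosure k Ω)) := by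
    apply mem_of_fixed
    intro σ _
    apply (constHom hU).injective
    have h1 : constHom hU (b ^ 2) = (constHom hU b * α) ^ 2 /
        algebraMap F (unramified F Ω U) (aeval x r) := by
      rw [mul_pow, hα, map_pow, mul_div_cancel_right₀ _ ((_root_.map_ne_zero _).2 hrx0)]
    rw [← hι, h1, map_div₀, map_pow, hb σ (Subgroup.mem_top _), hsa, (G.toHom σ).commutes]
  obtain ⟨c', hc'⟩ := IntermediateField.mem_bot.1 hb2
  have hc'0 : c' ≠ 0 := by
    rintro rfl
    rw [map_zero] at hc'
    exact pow_ne_zero 2 hb0 hc'.symm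
  refine ⟨c'⁻¹, constHom hU b * α, inv_ne_zero hc'0, fun σ => ?_, ?_⟩
  · exact hb σ (Subgroup.mem_top _)
  · have h1 : (constHom hU b * α) ^ 2 = constHom hU (algebraMap k _ c') *
        algebraMap F (unramified F Ω U) (aeval x r) := by
      rw [mul_pow, hα, hc', map_pow]
    have h2 : (algebraMap (unramified F Ω U) Ω (constHom hU b * α)) ^ 2 =
        algebraMap k Ω c' * algebraMap F Ω (aeval x r) := by
      rw [← map_pow, h1, map_mul]
      rfl
    change algebraMap k Ω c'⁻¹ * (algebraMap (unramified F Ω U) Ω (constHom hU b * α)) ^ 2 = _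
    rw [h2, map_inv₀, ← mul_assoc, inv_mul_cancel₀ ((_root_.map_ne_zero _).2 hc'0), one_mul]

end Pool.Agent.W623.SecE
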