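import Pool.Agent.W623.SecC.Comb

/-! # The combinatorial part, refined -/

namespace Pool.Agent.W623.SecE

open Finset Pool.Agent.W623.SecC

section

variable {X : Type*} [Fintype X] [DecidableEq X]
    (w : X → X → ZMod 2) (hw : ∀ i j l, w i j + w j l = w i l)

include hw

lemma w_self (i : X) : w i i = 0 := by
  have := hw i i i
  simpa using this

lemma w_symm (i j : X) : w i j = w j i := by
  have h1 := hw i j i
  rw [w_self w hw] at h1
  rcases zmod2_cases (w i j) with h | h <;> rcases zmod2_cases (w j i) with h' | h' <;>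
    rw [h, h'] at h1 ⊢
  · exact absurd h1 (by decide)
  · exact absurd h1 (by decide)

lemma w_rel (i j j0 : X) : w i j = w i j0 + w j j0 := by
  rw [← hw i j0 j, w_symm w hw j0 j]

lemma card_A (j0 : X) : ((univ.filter fun i => w i j0 = 1).card : ZMod 2) = ∑ i, w i j0 := by
  have h1 : ∀ i, w i j0 = if w i j0 = 1 then 1 else 0 := fun i => by
    rcases zmod2_cases (w i j0) with h | h <;> simp [h]
  rw [sum_congr rfl fun i _ => h1 i, sum_ite, sum_const_zero, add_zero, sum_const, nsmul_eq_mul,
    mul_one]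

lemma key_split (hE : ∀ i i' l l', i ≠ i' → l ≠ l' → w i i' = 0 → w l l' = 0 → w i l = 1 → False)
    (j0 : X) : (univ.filter fun i => w i j0 = 1).card ≤ 1 ∨
      (univ.filter fun i => ¬ w i j0 = 1).card ≤ 1 := by
  by_contra hcon
  push Not at hcon
  obtain ⟨i, hi, i', hi', hii⟩ := one_lt_card.1 hcon.1
  obtain ⟨l, hl, l', hl', hll⟩ := one_lt_card.1 hcon.2
  rw [mem_filter] at hi hi' hl hl'
  have hB : ∀ i, ¬ w i j0 = 1 → w i j0 = 0 := fun i h => (zmod2_cases (w i j0)).resolve_right h
  refine hE i i' l l' hii hll ?_ ?_ ?_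
  · rw [w_rel w hw i i' j0, hi.2, hi'.2]; decide
  · rw [w_rel w hw l l' j0, hB _ hl.2, hB _ hl'.2]; decide
  · rw [w_rel w hw i l j0, hi.2, hB _ hl.2]; decide

theorem comb_odd (hX : Even (Fintype.card X)) (hX4 : 4 ≤ Fintype.card X)
    (φ : Equiv.Perm X) (hφ : ∀ i j, w (φ i) (φ j) = w i j) (hsum : ∀ j, ∑ i, w i j = 1)
    (hE : ∀ i i' l l', i ≠ i' → l ≠ l' → w i i' = 0 → w l l' = 0 → w i l = 1 → False) :
    ∃ r, φ r = r ∧ (∀ i, i ≠ r → w i r = 1) ∧ ∀ i j, i ≠ r → j ≠ r → w i j = 0 := by
  have hX0 : Nonempty X := Fintype.card_pos_iff.1 (by omega)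
  obtain ⟨j0⟩ := hX0
  have hAB : (univ.filter fun i => w i j0 = 1).card + (univ.filter fun i => ¬ w i j0 = 1).card =
      Fintype.card X := by
    rw [← card_univ]
    exact card_filter_add_card_filter_not (s := (univ : Finset X)) (fun i => w i j0 = 1)
  have hoddA : Odd (univ.filter fun i => w i j0 = 1).card := by
    rw [← ZMod.natCast_eq_one_iff_odd, card_A w hw, hsum]
  have hmem : ∃ r, ∀ i, i ≠ r → w i j0 ≠ w r j0 := by
    rcases key_split w hw hE j0 with h | h
    · have h1 : (univ.filter fun i => w i j0 = 1).card = 1 := by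
        obtain ⟨m, hm⟩ := hoddA
        omega
      obtain ⟨r, hr⟩ := card_eq_one.1 h1
      have hr1 : w r j0 = 1 := by
        have : r ∈ univ.filter fun i => w i j0 = 1 := by rw [hr]; exact mem_singleton_self r
        exact (mem_filter.1 this).2
      refine ⟨r, fun i hi h3 => hi ?_⟩
      have : i ∈ univ.filter fun i => w i j0 = 1 := mem_filter.2 ⟨mem_univ _, by rw [h3, hr1]⟩
      rwa [hr, mem_singleton] at this
    · have h1 : (univ.filter fun i => ¬ w i j0 = 1).card = 1 := by
        obtain ⟨m, hm⟩ := hoddA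
        obtain ⟨n, hn⟩ := hX
        omega
      obtain ⟨r, hr⟩ := card_eq_one.1 h1
      have hr1 : ¬ w r j0 = 1 := by
        have : r ∈ univ.filter fun i => ¬ w i j0 = 1 := by rw [hr]; exact mem_singleton_self r
        exact (mem_filter.1 this).2
      refine ⟨r, fun i hi h3 => hi ?_⟩
      have : i ∈ univ.filter fun i => ¬ w i j0 = 1 := mem_filter.2 ⟨mem_univ _, by rwa [h3]⟩
      rwa [hr, mem_singleton] at this
  obtain ⟨r, hr⟩ := hmem
  have h1 : ∀ i, i ≠ r → w i r = 1 := by
    intro i hi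
    rw [w_rel w hw i r j0]
    have := hr i hi
    rcases zmod2_cases (w i j0) with h | h <;> rcases zmod2_cases (w r j0) with h' | h' <;>
      rw [h, h'] at this ⊢
    · exact absurd rfl this
    · decide
    · decide
    · exact absurd rfl this
  have h0 : ∀ i j, i ≠ r → j ≠ r → w i j = 0 := by
    intro i j hi hj
    rw [w_rel w hw i j r, h1 i hi, h1 j hj]
    decide
  exact ⟨r, comb_fix hX4 w φ hφ r h1 h0, h1, h0⟩

theorem comb_even (hX : Even (Fintype.card X)) (hsum : ∀ j, ∑ i, w i j = 0)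
    (hE : ∀ i i' l l', i ≠ i' → l ≠ l' → w i i' = 0 → w l l' = 0 → w i l = 1 → False) (i j : X) :
    w i j = 0 := by
  have hAB : (univ.filter fun i => w i j = 1).card + (univ.filter fun i => ¬ w i j = 1).card =
      Fintype.card X := by
    rw [← card_univ]
    exact card_filter_add_card_filter_not (s := (univ : Finset X)) (fun i => w i j = 1)
  have hevA : Even (univ.filter fun i => w i j = 1).card := by
    rw [← ZMod.natCast_eq_zero_iff_even, card_A w hw, hsum]
  have hB1 : 0 < (univ.filter fun i => ¬ w i j = 1).card := by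
    apply card_pos.2
    exact ⟨j, mem_filter.2 ⟨mem_univ _, by rw [w_self w hw]; decide⟩⟩
  by_contra hne
  have hA1 : 0 < (univ.filter fun i => w i j = 1).card := by
    apply card_pos.2
    exact ⟨i, mem_filter.2 ⟨mem_univ _, (zmod2_cases (w i j)).resolve_left hne⟩⟩
  obtain ⟨m, hm⟩ := hevA
  obtain ⟨n, hn⟩ := hX
  rcases key_split w hw hE j with h | h <;> omega

end

end Pool.Agent.W623.SecE
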