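import Pool.Agent.W623.SecE.Ell4
import Pool.Agent.W623.SecE.Comb2

/-! # The parities of the `x - θ i` -/

namespace Pool.Agent.W623.SecC

open Pool.Agent.W620.SC Polynomial Pool.Agent.W623.SecE

universe u v

lemma zmod2_odd {j : ℤ} (h : ((j : ZMod 2)) = 1) : Odd j := by
  rcases Int.even_or_odd j with h1 | h1
  · rw [zmod2_of_even h1] at h
    exact absurd h (by decide)
  · exact h1

namespace Dat

/-- branch points and a point of the curve -/
structure Br {k : Type*} {A : Type u} {M : Type v} [Field k] [Field A] [Field M] [Algebra k A]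
    (D : Dat k A M) (X : Type*) [Fintype X] [DecidableEq X] where
  hX : Even (Fintype.card X)
  hX4 : 4 ≤ Fintype.card X
  θ : X → A
  hθS : ∀ i, θ i ∈ D.S
  hθd : ∀ i j, i ≠ j → IsU D.V (θ i - θ j)
  π : Equiv.Perm X
  hπ : ∀ i, D.φ (θ i) = θ (π i)
  x : M
  y : M
  hx : ∀ σ, D.s σ x = x
  hy : ∀ σ, D.s σ y = y
  hy0 : y ≠ 0
  c : A
  hcS : c ∈ D.S
  jc : ℤ
  hc : IsU D.V (c / D.p ^ jc)
  hxy : D.ι c * y ^ 2 = ∏ i, (x - D.ι (θ i))
  htr : ∀ a, D.ι a ≠ x
  hsq : ∀ i j, ∃ α : M, α ^ 2 = (x - D.ι (θ i)) / (x - D.ι (θ j))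

variable {k : Type*} {A : Type u} {M : Type v} [Field k] [Field A] [Field M] [Algebra k A]
  {D : Dat k A M} {X : Type*} [Fintype X] [DecidableEq X] (B : D.Br X)

namespace Br

lemma xRS : B.x ∈ D.RS := fun σ _ => B.hx σ

lemma yRS : B.y ∈ D.RS := fun σ _ => B.hy σ

lemma ne (i : X) : B.x - D.ι (B.θ i) ≠ 0 := fun h => B.htr (B.θ i) (sub_eq_zero.1 h).symm

lemma mem (i : X) : B.x - D.ι (B.θ i) ∈ D.RS := sub_mem B.xRS (D.ι_mem (B.hθS i))

lemma powπ (N : ℕ) (a : X) : (D.φ ^ N) (B.θ a) = B.θ ((B.π ^ N) a) := by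
  induction N generalizing a with
  | zero => rfl
  | succ N ih =>
    rw [pow_succ, pow_succ]
    change (D.φ ^ N) (D.φ (B.θ a)) = B.θ ((B.π ^ N) (B.π a))
    rw [B.hπ, ih]

lemma fixm (a : X) : (D.φ ^ orderOf B.π) (B.θ a) = B.θ a := by
  rw [B.powπ, pow_orderOf_eq_one]
  rfl

variable [CharZero k] [IsAlgClosed A] [Algebra.IsAlgebraic k A]

lemma par (i j : X) : ∃ n : ℤ, D.Par ((B.x - D.ι (B.θ i)) / (B.x - D.ι (B.θ j))) n := by
  obtain ⟨α, hα⟩ := B.hsq i j
  exact D.exists_par (div_mem (B.mem i) (B.mem j)) (div_ne_zero (B.ne i) (B.ne j)) hα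

/-- the exponents -/
noncomputable def n (i j : X) : ℤ := Classical.choose (B.par i j)

lemma hn (i j : X) : D.Par ((B.x - D.ι (B.θ i)) / (B.x - D.ι (B.θ j))) (B.n i j) :=
  Classical.choose_spec (B.par i j)

lemma coc (i j l : X) : ((B.n i j : ZMod 2)) + B.n j l = B.n i l := by
  have h1 := (B.hn i j).mul (B.hn j l)
  rw [div_mul_div_cancel₀ (B.ne j)] at h1
  have h3 := h1.unique (B.hn i l)
  rw [← h3, Int.cast_add]

lemma φn (i j : X) : ((B.n (B.π i) (B.π j) : ZMod 2)) = B.n i j := by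
  have h1 := (B.hn i j).map_φ
  rw [map_div₀, map_sub, map_sub, B.hx, D.hι, D.hι, B.hπ, B.hπ] at h1
  exact (B.hn (B.π i) (B.π j)).unique h1

lemma sum (j : X) : ∑ i, ((B.n i j : ZMod 2)) = B.jc := by
  have h1 := Par.prod (D := D) Finset.univ
    (fun i => (B.x - D.ι (B.θ i)) / (B.x - D.ι (B.θ j)))
    (fun i => B.n i j) (fun i _ => B.hn i j)
  rw [Finset.prod_div_distrib, Finset.prod_const, Finset.card_univ, ← B.hxy] at h1
  obtain ⟨m, hm⟩ := B.hX
  have h3 : D.ι B.c * B.y ^ 2 / (B.x - D.ι (B.θ j)) ^ Fintype.card X =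
      D.ι B.c * (B.y / (B.x - D.ι (B.θ j)) ^ m) ^ 2 := by
    rw [hm, ← two_mul, mul_comm 2 m, pow_mul, div_pow, mul_div_assoc]
  rw [h3] at h1
  have h4 := (Par.const B.hcS B.hc).mul (Par.sq (D := D)
    (u := B.y / (B.x - D.ι (B.θ j)) ^ m) (div_mem B.yRS (pow_mem (B.mem j) _))
    (div_ne_zero B.hy0 (pow_ne_zero _ (B.ne j))))
  have h5 := h1.unique h4
  rw [Int.cast_sum, add_zero] at h5
  exact h5

lemma hE {q : ℕ} (hD : D.Ok q) (i i' l l' : X) (hii : i ≠ i') (hll : l ≠ l')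
    (hwi : ((B.n i i' : ZMod 2)) = 0) (hwl : ((B.n l l' : ZMod 2)) = 0)
    (hwil : ((B.n i l : ZMod 2)) = 1) : False := by
  have hself : ∀ i, ((B.n i i : ZMod 2)) = 0 :=
    w_self (fun i j => ((B.n i j : ZMod 2))) B.coc
  have hsymm : ∀ i j, ((B.n i j : ZMod 2)) = B.n j i :=
    w_symm (fun i j => ((B.n i j : ZMod 2))) B.coc
  have hil : i ≠ l := by
    rintro rfl
    rw [hself] at hwil
    exact absurd hwil (by decide)
  have hi'l : ((B.n i' l : ZMod 2)) = 1 := by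
    rw [← B.coc i' i l, hsymm i' i, hwi, hwil, zero_add]
  have hil' : ((B.n i l' : ZMod 2)) = 1 := by
    rw [← B.coc i l l', hwl, hwil, add_zero]
  have hi'l' : ((B.n i' l' : ZMod 2)) = 1 := by
    rw [← B.coc i' l l', hwl, hi'l, add_zero]
  have hne' : ∀ a b, ((B.n a b : ZMod 2)) = 1 → a ≠ b := by
    rintro a b h rfl
    rw [hself] at h
    exact absurd h (by decide)
  set t : Fin 3 → X := ![i', l, l'] with ht
  have hti : ∀ r, t r ≠ i := by
    intro r
    fin_cases r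
    · exact hii.symm
    · exact hil.symm
    · exact (hne' _ _ hil').symm
  have htt : ∀ r r', r ≠ r' → t r ≠ t r' := by
    intro r r' hr
    fin_cases r <;> fin_cases r'
    · exact absurd rfl hr
    · exact hne' _ _ hi'l
    · exact hne' _ _ hi'l'
    · exact (hne' _ _ hi'l).symm
    · exact absurd rfl hr
    · exact hll
    · exact (hne' _ _ hi'l').symm
    · exact hll.symm
    · exact absurd rfl hr
  have hfin := ell4 hD B.x B.xRS B.htr (orderOf B.π) (orderOf_pos _) (B.hx _)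
    (fun r => B.θ (t r)) (B.θ i) (fun r => B.hθS _) (B.hθS i) (fun r => B.fixm _) (B.fixm i)
    (fun r => B.hθd _ _ (hti r)) (fun r r' hr => B.hθd _ _ (htt r r' hr)) (fun r => B.n (t r) i)
    (fun r => B.hn _ _) (by
      apply zmod2_even
      push_cast
      change ((B.n i' i : ZMod 2)) + B.n l i + B.n l' i = 0
      rw [hsymm i' i, hsymm l i, hsymm l' i, hwi, hwil, hil']
      decide) 1
  have h3 := zmod2_of_even hfin
  change ((B.n l i : ZMod 2)) = 0 at h3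
  rw [hsymm l i, hwil] at h3
  exact absurd h3 (by decide)

theorem odd {q : ℕ} (hD : D.Ok q) (hjc : Odd B.jc) : ∃ r, B.π r = r ∧
    (∀ i, i ≠ r → Odd (B.n i r)) ∧ ∀ i j, i ≠ r → j ≠ r → Even (B.n i j) := by
  obtain ⟨r, h1, h2, h3⟩ := comb_odd (fun i j => ((B.n i j : ZMod 2))) B.coc B.hX B.hX4 B.π B.φn
    (fun j => by rw [B.sum, zmod2_of_odd hjc]) (B.hE hD)
  exact ⟨r, h1, fun i hi => zmod2_odd (h2 i hi), fun i j hi hj => zmod2_even (h3 i j hi hj)⟩

theorem even {q : ℕ} (hD : D.Ok q) (hjc : Even B.jc) (i j : X) : Even (B.n i j) :=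
  zmod2_even (comb_even (fun i j => ((B.n i j : ZMod 2))) B.coc B.hX
    (fun j => by rw [B.sum, zmod2_of_even hjc]) (B.hE hD) i j)

end Br

end Dat

end Pool.Agent.W623.SecC
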