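import Pool.Agent.W623.SecC.Abs

/-! # Four branch points -/

namespace Pool.Agent.W623.SecC

open Pool.Agent.W620.SC Polynomial

universe u v

namespace Dat

section

variable {k : Type*} {A : Type u} {M : Type v} [Field k] [Field A] [Field M] [Algebra k A]
  (D : Dat k A M)

/-- the hypotheses on the data -/
structure Ok (q : ℕ) : Prop where
  hA8 : PartA8.{u, v}
  h2 : (2 : A)⁻¹ ∈ D.V
  hq2 : 2 ≤ q
  hq : ∀ x ∈ D.V, D.φ x - x ^ q ∈ D.V.nonunits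
  hroots : D.HasRoots

variable {D}

theorem ell4 [CharZero k] [IsAlgClosed A] [Algebra.IsAlgebraic k A] {q : ℕ} (hD : D.Ok q)
    (T : M) (hT : T ∈ D.RS) (htr : ∀ a, D.ι a ≠ T) (N : ℕ) (hN : 0 < N)
    (hφT : D.s (D.φ ^ N) T = T) (ε : Fin 3 → A) (ε0 : A) (hεS : ∀ i, ε i ∈ D.S)
    (hε0S : ε0 ∈ D.S) (hεφ : ∀ i, (D.φ ^ N) (ε i) = ε i) (hε0φ : (D.φ ^ N) ε0 = ε0)
    (hd0 : ∀ i, IsU D.V (ε i - ε0)) (hd : ∀ i j, i ≠ j → IsU D.V (ε i - ε j))
    (n : Fin 3 → ℤ) (hn : ∀ i, D.Par ((T - D.ι (ε i)) / (T - D.ι ε0)) (n i))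
    (hsum : Even (n 0 + n 1 + n 2)) (i : Fin 3) : Even (n i) := by
  have hne0 : T - D.ι ε0 ≠ 0 := fun h => htr ε0 (sub_eq_zero.1 h).symm
  have hd00 : ∀ r, ε r - ε0 ≠ 0 := fun r => (hd0 r).1
  set e : Fin 3 → A := fun r => (ε r - ε0)⁻¹ with he
  set z : M := (T - D.ι ε0)⁻¹ with hz
  have hze : ∀ r, z - D.ι (e r) = D.ι (-(ε r - ε0)⁻¹) *
      ((T - D.ι (ε r)) / (T - D.ι ε0)) := by
    intro r
    have h1 : D.ι (ε r) - D.ι ε0 ≠ 0 := by
      rw [← map_sub]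
      exact (_root_.map_ne_zero _).2 (hd00 r)
    rw [hz, he, map_neg, map_inv₀, map_sub]
    field_simp
    ring
  have hepar : ∀ r, D.Par (z - D.ι (e r)) (n r) := by
    intro r
    rw [hze]
    have h3 := (Par.const_unit (neg_mem (inv_mem (sub_mem (hεS r) hε0S)))
      (hd0 r).inv.neg).mul (hn r)
    rwa [zero_add] at h3
  have hprod := Par.prod (D := D) Finset.univ (fun r => z - D.ι (e r)) _ (fun r _ => hepar r)
  obtain ⟨w, hw, hwz⟩ := hprod.exists_root (by rw [Fin.sum_univ_three]; exact hsum)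
  have hzfix : D.s (D.φ ^ N) z = z := by
    rw [hz, map_inv₀, map_sub, hφT, D.hι, hε0φ]
  have hefix : ∀ r, (D.φ ^ N) (e r) = e r := by
    intro r
    simp only [he]
    rw [map_inv₀, map_sub, hεφ, hε0φ]
  have hsplit : ∀ u : M, D.s (D.φ ^ (N * 2)) u = D.s (D.φ ^ N) (D.s (D.φ ^ N) u) := by
    intro u
    rw [pow_mul, pow_two, map_mul]
    rfl
  have hwfix : D.s (D.φ ^ (N * 2)) w = w := by
    have h1 : (D.s (D.φ ^ N) w) ^ 2 = w ^ 2 := by
      rw [← map_pow, hwz, map_prod]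
      refine Finset.prod_congr rfl fun r _ => ?_
      rw [map_sub, hzfix, D.hι, hefix]
    rw [hsplit]
    rcases sq_eq_sq_iff_eq_or_eq_neg.1 h1 with h4 | h4
    · rw [h4, h4]
    · rw [h4, map_neg, h4, neg_neg]
  refine (D.pw (N * 2)).ell hD.hA8 hD.h2 (q ^ (N * 2))
    (le_trans hD.hq2 (Nat.le_self_pow (by omega) q)) (D.powQ q hD.hq (N * 2)) e
    (fun r => inv_mem (sub_mem (hεS _) hε0S)) (fun r => (hd0 r).2.2) ?_ ?_ z w
    (inv_mem (sub_mem hT (D.ι_mem hε0S))) hw ?_ hwfix hwz ?_ hD.hroots i (n i) (hepar i)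
  · intro r r' hr
    have h3 : e r - e r' = (ε r' - ε r) * ((ε r - ε0)⁻¹ * (ε r' - ε0)⁻¹) := by
      simp only [he]
      have h4 := hd00 r
      have h5 := hd00 r'
      field_simp
      ring
    rw [h3]
    exact (hd _ _ hr.symm).mul ((hd0 r).inv.mul (hd0 r').inv)
  · intro r
    change (D.φ ^ (N * 2)) (e r) = e r
    rw [pow_mul, pow_two]
    change (D.φ ^ N) ((D.φ ^ N) (e r)) = e r
    rw [hefix, hefix]
  · change D.s (D.φ ^ (N * 2)) z = z
    rw [hsplit, hzfix, hzfix]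
  · intro a h
    refine htr (a⁻¹ + ε0) ?_
    change D.ι a = z at h
    rw [map_add, map_inv₀, h, hz, inv_inv, sub_add_cancel]

end

end Dat

end Pool.Agent.W623.SecC
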