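import Pool.Agent.W623.SecE.Abs2

/-! # Canonical signs of the square roots -/

namespace Pool.Agent.W623.SecC

open Pool.Agent.W620.SC Polynomial Pool.Agent.W623.SecE

universe u v

section units

variable {K : Type*} [Field K] {V : ValuationSubring K}

lemma isU_of_mul {a b : K} (ha : a ∈ V) (hb : b ∈ V) (h : IsU V (a * b)) : IsU V a := by
  have ha0 : a ≠ 0 := left_ne_zero_of_mul h.1
  have hb0 : b ≠ 0 := right_ne_zero_of_mul h.1
  refine ⟨ha0, ha, ?_⟩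
  have h1 : a⁻¹ = b * (a * b)⁻¹ := by
    field_simp
  rw [h1]
  exact mul_mem hb h.2.2

end units

namespace Dat

/-- square roots `γ i` of the `(z - e i) / p` -/
structure Gm {k : Type*} {A : Type u} {M : Type v} [Field k] [Field A] [Field M] [Algebra k A]
    (D : Dat k A M) (Y : Type*) [Fintype Y] [DecidableEq Y] where
  e : Y → A
  heS : ∀ i, e i ∈ D.S
  hed : ∀ i j, i ≠ j → IsU D.V (e i - e j)
  π : Equiv.Perm Y
  hπ : ∀ i, D.φ (e i) = e (π i)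
  z : M
  hφz : D.s D.φ z = z
  htr : ∀ a, D.ι a ≠ z
  γ : Y → M
  hγ : ∀ i, γ i ∈ D.RS
  hzγ : ∀ i, z - D.ι (e i) = D.ι D.p * γ i ^ 2
  hsq : ∀ i j k, i ≠ k → j ≠ k → ∃ α : M, α ^ 2 = (γ i + γ k) * (γ j + γ k)

variable {k : Type*} {A : Type u} {M : Type v} [Field k] [Field A] [Field M] [Algebra k A]
  {D : Dat k A M} {Y : Type*} [Fintype Y] [DecidableEq Y] (B : D.Gm Y)

namespace Gm

lemma ne0 (i : Y) : B.γ i ≠ 0 := by
  intro h
  have h1 := B.hzγ i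
  rw [h, zero_pow (by norm_num), mul_zero] at h1
  exact B.htr _ (sub_eq_zero.1 h1).symm

lemma rel (i j : Y) : D.ι D.p * (B.γ i ^ 2 - B.γ j ^ 2) = D.ι (B.e j - B.e i) := by
  rw [mul_sub, ← B.hzγ, ← B.hzγ, map_sub]
  ring

lemma add_mul_sub (i j : Y) :
    (B.γ i + B.γ j) * (B.γ i - B.γ j) = D.ι ((B.e j - B.e i) / D.p) := by
  have h0 : D.ι D.p ≠ 0 := ιp0
  rw [map_div₀, eq_div_iff h0]
  linear_combination B.rel i j

variable [CharZero k] [IsAlgClosed A] [Algebra.IsAlgebraic k A]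

lemma par_as {i j : Y} (h : i ≠ j) : D.Par ((B.γ i + B.γ j) * (B.γ i - B.γ j)) (-1) := by
  rw [B.add_mul_sub]
  refine Par.const (div_mem (sub_mem (B.heS _) (B.heS _)) D.pS) ?_
  have h1 : (B.e j - B.e i) / D.p / D.p ^ (-1 : ℤ) = B.e j - B.e i := by
    have h0 := D.p0
    rw [zpow_neg_one]
    field_simp
  rw [h1]
  exact B.hed _ _ h.symm

lemma add_ne {i j : Y} (h : i ≠ j) : B.γ i + B.γ j ≠ 0 := left_ne_zero_of_mul (B.par_as h).ne

lemma sub_ne {i j : Y} (h : i ≠ j) : B.γ i - B.γ j ≠ 0 := right_ne_zero_of_mul (B.par_as h).ne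

lemma exh (i j l : Y) (hi : i ≠ l) (hj : j ≠ l) :
    ∃ n : ℤ, D.Par ((B.γ i + B.γ l) * (B.γ j + B.γ l)) n := by
  obtain ⟨α, hα⟩ := B.hsq i j l hi hj
  exact D.exists_par (mul_mem (add_mem (B.hγ _) (B.hγ _)) (add_mem (B.hγ _) (B.hγ _)))
    (mul_ne_zero (B.add_ne hi) (B.add_ne hj)) hα

open Classical in
/-- the parity of `(γ i + γ l) * (γ j + γ l)` -/
noncomputable def H (i j l : Y) : ZMod 2 :=
  if h : i ≠ l ∧ j ≠ l then ((Classical.choose (B.exh i j l h.1 h.2) : ℤ) : ZMod 2) else 0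

lemma H_eq {i j l : Y} (hi : i ≠ l) (hj : j ≠ l) {n : ℤ}
    (h : D.Par ((B.γ i + B.γ l) * (B.γ j + B.γ l)) n) : B.H i j l = n := by
  unfold H
  rw [dif_pos ⟨hi, hj⟩]
  exact (Classical.choose_spec (B.exh i j l hi hj)).unique h

lemma H_symm (i j l : Y) : B.H i j l = B.H j i l := by
  by_cases h : i ≠ l ∧ j ≠ l
  · obtain ⟨n, hn⟩ := B.exh i j l h.1 h.2
    rw [B.H_eq h.1 h.2 hn]
    rw [mul_comm] at hn
    rw [B.H_eq h.2 h.1 hn]
  · unfold H
    rw [dif_neg h, dif_neg (fun h' => h ⟨h'.2, h'.1⟩)]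

lemma H_coc {i j l : Y} (hij : i ≠ j) (hjl : j ≠ l) (hil : i ≠ l) :
    B.H i j l + B.H j l i + B.H i l j = 0 := by
  obtain ⟨a, ha⟩ := B.exh i j l hil hjl
  obtain ⟨b, hb⟩ := B.exh j l i hij.symm hil.symm
  obtain ⟨c, hc⟩ := B.exh i l j hij hjl.symm
  rw [B.H_eq hil hjl ha, B.H_eq hij.symm hil.symm hb, B.H_eq hij hjl.symm hc]
  have h1 := (ha.mul hb).mul hc
  have h2 : (B.γ i + B.γ l) * (B.γ j + B.γ l) * ((B.γ j + B.γ i) * (B.γ l + B.γ i)) *
      ((B.γ i + B.γ j) * (B.γ l + B.γ j)) =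
      ((B.γ i + B.γ j) * (B.γ j + B.γ l) * (B.γ i + B.γ l)) ^ 2 := by ring
  rw [h2] at h1
  have h3 := h1.unique (Par.sq (D := D) (mul_mem (mul_mem (add_mem (B.hγ i) (B.hγ j))
    (add_mem (B.hγ j) (B.hγ l))) (add_mem (B.hγ i) (B.hγ l)))
    (mul_ne_zero (mul_ne_zero (B.add_ne hij) (B.add_ne hjl)) (B.add_ne hil)))
  push_cast at h3
  exact h3

/-- changing the sign of `γ l` relative to `γ i` -/
lemma par_flip {i j l : Y} (hi : i ≠ l) (hj : j ≠ l) {n : ℤ}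
    (h : D.Par ((B.γ i - B.γ l) * (B.γ j + B.γ l)) n) : B.H i j l = n + 1 := by
  have h1 : (B.γ i + B.γ l) * (B.γ j + B.γ l) =
      (B.γ i + B.γ l) * (B.γ i - B.γ l) / (B.γ i - B.γ l) ^ 2 *
        ((B.γ i - B.γ l) * (B.γ j + B.γ l)) := by
    have := B.sub_ne hi
    field_simp
  have h2 := ((B.par_as hi).div (Par.sq (D := D) (sub_mem (B.hγ i) (B.hγ l)) (B.sub_ne hi))).mul h
  rw [← h1] at h2
  rw [B.H_eq hi hj h2]
  push_cast
  rw [show (-1 : ZMod 2) = 1 by decide]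
  ring

lemma par_flip2 {i j l : Y} (hi : i ≠ l) (hj : j ≠ l) {n : ℤ}
    (h : D.Par ((B.γ i - B.γ l) * (B.γ j - B.γ l)) n) : B.H i j l = n := by
  have h1 : (B.γ i - B.γ l) * (B.γ j + B.γ l) =
      (B.γ j + B.γ l) * (B.γ j - B.γ l) / (B.γ j - B.γ l) ^ 2 *
        ((B.γ i - B.γ l) * (B.γ j - B.γ l)) := by
    have := B.sub_ne hj
    field_simp
  have h2 := ((B.par_as hj).div (Par.sq (D := D) (sub_mem (B.hγ j) (B.hγ l)) (B.sub_ne hj))).mul h
  rw [← h1] at h2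
  rw [B.par_flip hi hj h2]
  push_cast
  rw [show (-1 : ZMod 2) = 1 by decide]
  rw [add_comm, ← add_assoc, show (1 + 1 : ZMod 2) = 0 by decide, zero_add]

/-- the linear form that vanishes at `z = e l` -/
lemma par_lin (i j l : Y) (hij : i ≠ j) (hil : i ≠ l) (hjl : j ≠ l) (a b : A) (haS : a ∈ D.S)
    (hbS : b ∈ D.S) (ha : a ^ 2 = B.e l - B.e i) (hb : b ^ 2 = B.e l - B.e j)
    (h2 : IsU D.V (2 : A)) (hab : IsU D.V (a + b))
    (hL : D.ι a * B.γ j - D.ι b * B.γ i ≠ 0) (n : ℤ)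
    (hn : D.Par ((B.γ i + B.γ l) * (B.γ j + B.γ l)) n) :
    D.Par ((D.ι a * B.γ j - D.ι b * B.γ i) * (B.γ i - B.γ j)) (-1 - n) := by
  have hp0 : D.ι D.p ≠ 0 := ιp0
  have h20 : (2 : M) ≠ 0 := by
    have h3 : D.ι 2 ≠ 0 := (_root_.map_ne_zero _).2 h2.1
    rwa [map_ofNat] at h3
  have hA := B.rel i l
  have hB := B.rel j l
  rw [← ha, map_pow] at hA
  rw [← hb, map_pow] at hB
  set P := D.ι D.p with hP
  set a' := D.ι a with ha'
  set b' := D.ι b with hb'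
  have hadd1 := B.add_ne hil
  have hadd2 := B.add_ne hjl
  have hsub := B.sub_ne hij
  set p := B.γ i + B.γ l with hp
  set q := B.γ j + B.γ l with hq
  have key : (a' + b') * (a' * q - b' * p) ^ 2 =
      2 * (p * q) * (P * ((a' * B.γ j - b' * B.γ i) * (B.γ i - B.γ j))) := by
    rw [hp, hq]
    linear_combination (-((a' + b') * (B.γ j + B.γ l) ^ 2) +
      2 * ((B.γ i + B.γ l) * (B.γ j + B.γ l)) * b') * hA +
      (-((a' + b') * (B.γ i + B.γ l) ^ 2) +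
      2 * ((B.γ i + B.γ l) * (B.γ j + B.γ l)) * a') * hB
  have hK : (a' * B.γ j - b' * B.γ i) * (B.γ i - B.γ j) =
      D.ι ((a + b) / 2) * (P⁻¹ * (((a' * q - b' * p) ^ 2) / (p * q))) := by
    rw [map_div₀, map_add, map_ofNat, ← ha', ← hb']
    field_simp
    linear_combination -key
  have hRS : a' * q - b' * p ∈ D.RS :=
    sub_mem (mul_mem (D.ι_mem haS) (add_mem (B.hγ _) (B.hγ _)))
      (mul_mem (D.ι_mem hbS) (add_mem (B.hγ _) (B.hγ _)))
  have hne : a' * q - b' * p ≠ 0 := by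
    intro h
    rw [h] at hK
    rw [zero_pow (by norm_num), zero_div, mul_zero, mul_zero] at hK
    exact mul_ne_zero hL hsub hK
  rw [hK]
  have hPpar : D.Par P⁻¹ (-1) := by
    have h3 : D.Par P 1 := Par.const D.pS (by
      rw [zpow_one, div_self D.p0]
      exact isU_one)
    exact h3.inv
  have h5 := (Par.const_unit (div_mem (add_mem haS hbS) (ofNat_mem D.S 2)) (hab.div h2)).mul
    (hPpar.mul ((Par.sq (D := D) hRS hne).div hn))
  rw [show (0 : ℤ) + (-1 + (0 - n)) = -1 - n by ring] at h5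
  exact h5

end Gm

end Dat

end Pool.Agent.W623.SecC
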