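import Pool.Agent.W623.SecE.Gam

/-! # Canonical signs: independence and the Frobenius -/

namespace Pool.Agent.W623.SecC

open Pool.Agent.W620.SC Polynomial Pool.Agent.W623.SecE

universe u v

namespace Dat

variable {k : Type*} {A : Type u} {M : Type v} [Field k] [Field A] [Field M] [Algebra k A]
  {D : Dat k A M} {Y : Type*} [Fintype Y] [DecidableEq Y] (B : D.Gm Y)

namespace Gm

lemma powπ (N : ℕ) (a : Y) : (D.φ ^ N) (B.e a) = B.e ((B.π ^ N) a) := by
  induction N generalizing a with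
  | zero => rfl
  | succ N ih =>
    rw [pow_succ, pow_succ]
    change (D.φ ^ N) (D.φ (B.e a)) = B.e ((B.π ^ N) (B.π a))
    rw [B.hπ, ih]

lemma fixm (a : Y) : (D.φ ^ orderOf B.π) (B.e a) = B.e a := by
  rw [B.powπ, pow_orderOf_eq_one]
  rfl

lemma zpow_fix (N : ℕ) : D.s (D.φ ^ N) B.z = B.z := by
  induction N with
  | zero => rw [pow_zero, map_one]; rfl
  | succ N ih =>
    rw [pow_succ, map_mul]
    change D.s (D.φ ^ N) (D.s D.φ B.z) = B.z
    rw [B.hφz, ih]

/-- elements whose square is fixed -/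
lemma fix2 {σ : A ≃ₐ[k] A} {u : M} (h : D.s σ (u ^ 2) = u ^ 2) : D.s (σ * σ) u = u := by
  rw [map_pow] at h
  rw [map_mul]
  change D.s σ (D.s σ u) = u
  rcases sq_eq_sq_iff_eq_or_eq_neg.1 h with h4 | h4
  · rw [h4, h4]
  · rw [h4, map_neg, h4, neg_neg]

lemma fix2' {σ : A ≃ₐ[k] A} {u : A} (h : σ (u ^ 2) = u ^ 2) : (σ * σ) u = u := by
  rw [map_pow] at h
  change σ (σ u) = u
  rcases sq_eq_sq_iff_eq_or_eq_neg.1 h with h4 | h4
  · rw [h4, h4]
  · rw [h4, map_neg, h4, neg_neg]

lemma γfix (i : Y) : D.s (D.φ ^ (orderOf B.π * 2)) (B.γ i) = B.γ i := by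
  rw [pow_mul, pow_two]
  apply fix2
  have h1 := congrArg (D.s (D.φ ^ orderOf B.π)) (B.hzγ i)
  rw [map_sub, D.hι, B.fixm, B.zpow_fix, map_mul, D.hι] at h1
  have h2 : (D.φ ^ orderOf B.π) D.p = D.p := (D.φ ^ orderOf B.π).commutes _
  rw [h2, B.hzγ] at h1
  exact (mul_left_cancel₀ ιp0 h1).symm

variable [CharZero k] [IsAlgClosed A] [Algebra.IsAlgebraic k A]

/-- square roots of the differences -/
lemma exists_sqrt {i j : Y} (h : i ≠ j) : ∃ a : A, a ∈ D.S ∧ IsU D.V a ∧ a ^ 2 = B.e i - B.e j ∧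
    (D.φ ^ (orderOf B.π * 2)) a = a := by
  obtain ⟨ρ, h1, h2, h3⟩ := D.root_unit 1 (sub_mem (B.heS i) (B.heS j)) (B.hed i j h)
  rw [pow_one] at h3
  refine ⟨ρ, h1, h2, h3, ?_⟩
  rw [pow_mul, pow_two]
  apply fix2'
  rw [h3, map_sub, B.fixm, B.fixm]

/-- the parity does not depend on `l` -/
theorem H_indep {q : ℕ} (hD : D.Ok q) {i j l l' : Y} (hij : i ≠ j) (hil : i ≠ l) (hjl : j ≠ l)
    (hil' : i ≠ l') (hjl' : j ≠ l') : B.H i j l = B.H i j l' := by
  by_cases hll : l = l'
  · rw [hll]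
  have hch : CharZero A := charZero_of_injective_algebraMap (algebraMap k A).injective
  have h2 : IsU D.V (2 : A) := by
    refine ⟨two_ne_zero, ?_, hD.h2⟩
    have h3 : (2 : A) = 1 + 1 := by norm_num
    rw [h3]
    exact add_mem (one_mem _) (one_mem _)
  obtain ⟨n, hn⟩ := B.exh i j l hil hjl
  obtain ⟨n', hn'⟩ := B.exh i j l' hil' hjl'
  rw [B.H_eq hil hjl hn, B.H_eq hil' hjl' hn']
  obtain ⟨a, haS, haU, ha, haφ⟩ := B.exists_sqrt hil.symm
  obtain ⟨b, hbS, hbU, hb, hbφ⟩ := B.exists_sqrt hjl.symm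
  obtain ⟨a', haS', haU', ha', haφ'⟩ := B.exists_sqrt hil'.symm
  obtain ⟨b', hbS', hbU', hb', hbφ'⟩ := B.exists_sqrt hjl'.symm
  set T : M := B.γ j / B.γ i with hT
  have hγi := B.ne0 i
  have hγj := B.ne0 j
  -- `T` is transcendental
  have htr : ∀ c, D.ι c ≠ T := by
    intro c hc
    have h3 : D.ι c * B.γ i = B.γ j := by
      rw [hc, hT]
      field_simp
    have h5 : (B.z - D.ι (B.e i)) * D.ι (c ^ 2) = B.z - D.ι (B.e j) := by
      rw [B.hzγ, B.hzγ, ← h3, map_pow]
      ring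
    by_cases hc1 : c ^ 2 = 1
    · rw [hc1, map_one, mul_one] at h5
      have h6 : D.ι (B.e i) = D.ι (B.e j) := by linear_combination -h5
      exact (B.hed i j hij).1 (sub_eq_zero.2 (D.ι.injective h6))
    · apply B.htr ((B.e j - B.e i * c ^ 2) / (1 - c ^ 2))
      have h7 : D.ι (1 - c ^ 2) ≠ 0 := (_root_.map_ne_zero _).2 (sub_ne_zero.2 (Ne.symm hc1))
      rw [map_div₀, div_eq_iff h7, map_sub, map_sub, map_mul, map_one]
      linear_combination h5
  have hdiff : ∀ c d : A, c ≠ 0 → T - D.ι (d / c) =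
      (D.ι c * B.γ j - D.ι d * B.γ i) / (D.ι c * B.γ i) := by
    intro c d hc
    have h3 : D.ι c ≠ 0 := (_root_.map_ne_zero _).2 hc
    rw [hT, map_div₀]
    field_simp
  have hlin : ∀ c d : A, c ≠ 0 → D.ι c * B.γ j - D.ι d * B.γ i ≠ 0 := by
    intro c d hc h
    apply htr (d / c)
    have h3 := hdiff c d hc
    rw [h, zero_div, sub_eq_zero] at h3
    exact h3.symm
  -- sums and differences of units
  have hU : ∀ (i j l : Y) (a b : A), i ≠ j → IsU D.V a → IsU D.V b → a ^ 2 = B.e l - B.e i →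
      b ^ 2 = B.e l - B.e j → IsU D.V (a + b) ∧ IsU D.V (a - b) := by
    intro i j l a b hij haU hbU ha hb
    have h3 : IsU D.V ((a + b) * (a - b)) := by
      have h5 : (a + b) * (a - b) = B.e j - B.e i := by linear_combination ha - hb
      rw [h5]
      exact B.hed _ _ hij.symm
    refine ⟨isU_of_mul (add_mem haU.2.1 hbU.2.1) (sub_mem haU.2.1 hbU.2.1) h3, ?_⟩
    rw [mul_comm] at h3
    exact isU_of_mul (sub_mem haU.2.1 hbU.2.1) (add_mem haU.2.1 hbU.2.1) h3
  have hU1 := hU i j l a b hij haU hbU ha hb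
  have hU2 := hU i j l' a' b' hij haU' hbU' ha' hb'
  -- the parities of the four linear forms
  have hp1 := B.par_lin i j l hij hil hjl a b haS hbS ha hb h2 hU1.1 (hlin _ _ haU.1) n hn
  have hp2 := B.par_lin i j l hij hil hjl a (-b) haS (neg_mem hbS) ha (by rw [neg_sq]; exact hb) h2
    (by rw [← sub_eq_add_neg]; exact hU1.2) (hlin _ _ haU.1) n hn
  have hp3 := B.par_lin i j l' hij hil' hjl' a' b' haS' hbS' ha' hb' h2 hU2.1 (hlin _ _ haU'.1) n'
    hn'
  have hp4 := B.par_lin i j l' hij hil' hjl' a' (-b') haS' (neg_mem hbS') ha'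
    (by rw [neg_sq]; exact hb') h2 (by rw [← sub_eq_add_neg]; exact hU2.2) (hlin _ _ haU'.1) n' hn'
  have hquot : ∀ (c d c' d' : A) (m m' : ℤ), c ∈ D.S → c' ∈ D.S → IsU D.V c → IsU D.V c' →
      D.Par ((D.ι c * B.γ j - D.ι d * B.γ i) * (B.γ i - B.γ j)) m →
      D.Par ((D.ι c' * B.γ j - D.ι d' * B.γ i) * (B.γ i - B.γ j)) m' →
      D.Par ((T - D.ι (d / c)) / (T - D.ι (d' / c'))) (m - m') := by
    intro c d c' d' m m' hcS hcS' hc hc' hm hm'
    have h3 := (Par.const_unit (div_mem hcS' hcS) (hc'.div hc)).mul (hm.div hm')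
    rw [zero_add] at h3
    have h5 : D.ι (c' / c) * ((D.ι c * B.γ j - D.ι d * B.γ i) * (B.γ i - B.γ j) /
        ((D.ι c' * B.γ j - D.ι d' * B.γ i) * (B.γ i - B.γ j))) =
        (T - D.ι (d / c)) / (T - D.ι (d' / c')) := by
      rw [hdiff c d hc.1, hdiff c' d' hc'.1, map_div₀]
      have h6 := B.sub_ne hij
      have h7 := hlin c' d' hc'.1
      have h8 : D.ι c ≠ 0 := (_root_.map_ne_zero _).2 hc.1
      have h9 : D.ι c' ≠ 0 := (_root_.map_ne_zero _).2 hc'.1
      field_simp
    rwa [h5] at h3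
  have hTRS : T ∈ D.RS := div_mem (B.hγ _) (B.hγ _)
  set N := orderOf B.π * 2 with hN
  have hN0 : 0 < N := by
    have := orderOf_pos B.π
    omega
  have hTφ : D.s (D.φ ^ N) T = T := by
    rw [hT, map_div₀, B.γfix, B.γfix]
  have htU : IsU D.V (b / a) := hbU.div haU
  have htU' : IsU D.V (b' / a') := hbU'.div haU'
  -- differences of the branch points
  have hprod : IsU D.V ((b' / a' - b / a) * (b' / a' + b / a)) := by
    have h3 : (b' / a' - b / a) * (b' / a' + b / a) =
        (B.e l' - B.e l) * (B.e j - B.e i) / (a ^ 2 * a' ^ 2) := by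
      have h5 := haU.1
      have h6 := haU'.1
      field_simp
      linear_combination b' ^ 2 * ha + (B.e l - B.e i) * hb' - a' ^ 2 * hb -
        (B.e l - B.e j) * ha'
    rw [h3]
    exact ((B.hed _ _ (Ne.symm hll)).mul (B.hed _ _ hij.symm)).div ((haU.pow 2).mul (haU'.pow 2))
  have hm1 : IsU D.V (b' / a' - b / a) :=
    isU_of_mul (sub_mem htU'.2.1 htU.2.1) (add_mem htU'.2.1 htU.2.1) hprod
  have hm2 : IsU D.V (b' / a' + b / a) := by
    rw [mul_comm] at hprod
    exact isU_of_mul (add_mem htU'.2.1 htU.2.1) (sub_mem htU'.2.1 htU.2.1) hprod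
  have hfin := ell4 hD T hTRS htr N hN0 hTφ ![-b / a, b' / a', -b' / a'] (b / a) ?_
    (div_mem hbS haS) ?_ ?_ ?_ ?_ ![(-1 - n) - (-1 - n), (-1 - n') - (-1 - n),
      (-1 - n') - (-1 - n)] ?_ ?_ 1
  · have h3 := zmod2_of_even hfin
    simp only [Matrix.cons_val_one, Matrix.cons_val_zero] at h3
    push_cast at h3
    linear_combination h3
  · intro r
    fin_cases r
    · exact div_mem (neg_mem hbS) haS
    · exact div_mem hbS' haS'
    · exact div_mem (neg_mem hbS') haS'
  · intro r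
    fin_cases r
    · change (D.φ ^ N) (-b / a) = _
      rw [map_div₀, map_neg, haφ, hbφ]
      rfl
    · change (D.φ ^ N) (b' / a') = _
      rw [map_div₀, haφ', hbφ']
      rfl
    · change (D.φ ^ N) (-b' / a') = _
      rw [map_div₀, map_neg, haφ', hbφ']
      rfl
  · rw [map_div₀, haφ, hbφ]
  · intro r
    fin_cases r
    · change IsU D.V (-b / a - b / a)
      have h3 : -b / a - b / a = -(2 * (b / a)) := by ring
      rw [h3]
      exact (h2.mul htU).neg
    · exact hm1
    · change IsU D.V (-b' / a' - b / a)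
      have h3 : -b' / a' - b / a = -(b' / a' + b / a) := by ring
      rw [h3]
      exact hm2.neg
  · have h01 : IsU D.V (-b / a - b' / a') := by
      have h3 : -b / a - b' / a' = -(b' / a' + b / a) := by ring
      rw [h3]
      exact hm2.neg
    have h02 : IsU D.V (-b / a - -b' / a') := by
      have h3 : -b / a - -b' / a' = b' / a' - b / a := by ring
      rw [h3]
      exact hm1
    have h12 : IsU D.V (b' / a' - -b' / a') := by
      have h3 : b' / a' - -b' / a' = 2 * (b' / a') := by ring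
      rw [h3]
      exact h2.mul htU'
    have hneg : ∀ u v : A, IsU D.V (u - v) → IsU D.V (v - u) := fun u v h => by
      rw [← neg_sub]
      exact h.neg
    intro r r' hr
    fin_cases r <;> fin_cases r'
    · exact absurd rfl hr
    · exact h01
    · exact h02
    · exact hneg _ _ h01
    · exact absurd rfl hr
    · exact h12
    · exact hneg _ _ h02
    · exact hneg _ _ h12
    · exact absurd rfl hr
  · intro r
    fin_cases r
    · exact hquot a (-b) a b _ _ haS haS haU haU hp2 hp1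
    · exact hquot a' b' a b _ _ haS' haS haU' haU hp3 hp1
    · exact hquot a' (-b') a b _ _ haS' haS haU' haU hp4 hp1
  · simp only [Matrix.cons_val_one, Matrix.cons_val_zero, Matrix.cons_val]
    exact ⟨n - n', by ring⟩

end Gm

end Dat

end Pool.Agent.W623.SecC
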