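import Pool.Agent.W623.SecE.Gam2

/-! # Canonical signs: the Frobenius -/

namespace Pool.Agent.W623.SecC

open Pool.Agent.W620.SC Polynomial Pool.Agent.W623.SecE

universe u v

/-- the sign of an element of `ℤ/2` -/
def sg (M : Type*) [Field M] (a : ZMod 2) : M := if a = 0 then 1 else -1

lemma sg_zero (M : Type*) [Field M] : sg M 0 = 1 := if_pos rfl

lemma sg_one (M : Type*) [Field M] : sg M 1 = -1 := if_neg (by decide)

lemma sg_add (M : Type*) [Field M] (a b : ZMod 2) : sg M (a + b) = sg M a * sg M b := by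
  rcases zmod2_cases a with rfl | rfl <;> rcases zmod2_cases b with rfl | rfl
  · rw [add_zero, sg_zero, mul_one]
  · rw [zero_add, sg_zero, one_mul]
  · rw [add_zero, sg_zero, mul_one]
  · rw [show (1 + 1 : ZMod 2) = 0 by decide, sg_zero, sg_one]
    norm_num

lemma sg_sum (M : Type*) [Field M] {I : Type*} [DecidableEq I] (R : Finset I) (y : I → ZMod 2) :
    sg M (∑ i ∈ R, y i) = ∏ i ∈ R, sg M (y i) := by
  induction R using Finset.induction_on with
  | empty => rw [Finset.sum_empty, Finset.prod_empty, sg_zero]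
  | insert a t ha ih => rw [Finset.sum_insert ha, Finset.prod_insert ha, sg_add, ih]

namespace Dat

variable {k : Type*} {A : Type u} {M : Type v} [Field k] [Field A] [Field M] [Algebra k A]
  {D : Dat k A M}

lemma Par.neg [IsAlgClosed A] {u : M} {j : ℤ} (h : D.Par u j) : D.Par (-u) j := by
  have h1 := (Par.const_unit (D := D) (c := (-1 : A)) (neg_mem (one_mem _)) isU_one.neg).mul h
  rw [zero_add, map_neg, map_one, neg_one_mul] at h1
  exact h1

variable {Y : Type*} [Fintype Y] [DecidableEq Y] (B : D.Gm Y)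

namespace Gm

lemma φγ (i : Y) : ∃ y : ZMod 2, D.s D.φ (B.γ i) = sg M y * B.γ (B.π i) := by
  have h1 := congrArg (D.s D.φ) (B.hzγ i)
  rw [map_sub, D.hι, B.hπ, B.hφz, map_mul, D.hι] at h1
  have h2 : D.φ D.p = D.p := D.φ.commutes _
  rw [h2, B.hzγ, map_pow] at h1
  rcases sq_eq_sq_iff_eq_or_eq_neg.1 (mul_left_cancel₀ ιp0 h1).symm with h4 | h4
  · exact ⟨0, by rw [h4, sg_zero, one_mul]⟩
  · exact ⟨1, by rw [h4, sg_one, neg_one_mul]⟩

/-- the sign of the action of Frobenius on `γ i` -/
noncomputable def yy (i : Y) : ZMod 2 := Classical.choose (B.φγ i)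

lemma hyy (i : Y) : D.s D.φ (B.γ i) = sg M (B.yy i) * B.γ (B.π i) := Classical.choose_spec (B.φγ i)

variable [CharZero k] [IsAlgClosed A] [Algebra.IsAlgebraic k A]

lemma Hφ {i j l : Y} (hi : i ≠ l) (hj : j ≠ l) :
    B.H (B.π i) (B.π j) (B.π l) = B.H i j l + (B.yy i + B.yy j) := by
  obtain ⟨n, hn⟩ := B.exh i j l hi hj
  have hi' : B.π i ≠ B.π l := fun h => hi (B.π.injective h)
  have hj' : B.π j ≠ B.π l := fun h => hj (B.π.injective h)
  rw [B.H_eq hi hj hn]
  have h1 := hn.map_φ
  rw [map_mul, map_add, map_add, B.hyy, B.hyy, B.hyy] at h1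
  have e11 : (1 + 1 : ZMod 2) = 0 := by decide
  have hflip : ∀ {a b c : Y}, a ≠ c → b ≠ c →
      D.Par ((B.γ a - B.γ c) * (B.γ b + B.γ c)) n → B.H b a c = n + 1 := by
    intro a b c ha hb h
    rw [B.H_symm]
    exact B.par_flip ha hb h
  rcases zmod2_cases (B.yy i) with h | h <;> rcases zmod2_cases (B.yy j) with h' | h' <;>
    rcases zmod2_cases (B.yy l) with h'' | h'' <;> rw [h, h', h''] at h1 <;>
    rw [h, h'] <;> simp only [sg_zero, sg_one, one_mul, neg_one_mul] at h1
  · rw [B.H_eq hi' hj' h1]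
    ring
  · have h2 : B.H (B.π i) (B.π j) (B.π l) = n := by
      apply B.par_flip2 hi' hj'
      convert h1 using 1
      ring
    rw [h2]
    ring
  · rw [zero_add]
    apply hflip hj' hi'
    have h3 := h1.neg
    convert h3 using 1
    ring
  · rw [zero_add]
    apply B.par_flip hi' hj'
    have h3 := h1.neg
    convert h3 using 1
    ring
  · rw [add_zero]
    apply B.par_flip hi' hj'
    have h3 := h1.neg
    convert h3 using 1
    ring
  · rw [add_zero]
    apply hflip hj' hi'
    have h3 := h1.neg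
    convert h3 using 1
    ring
  · rw [e11, add_zero]
    apply B.par_flip2 hi' hj'
    convert h1 using 1
    ring
  · rw [e11, add_zero]
    apply B.H_eq hi' hj'
    convert h1 using 1
    ring

/-- the key theorem: the sum of the signs over a stable set with an even number of elements -/
theorem sum_yy {q : ℕ} (hD : D.Ok q) (hY : 3 ≤ Fintype.card Y) (R : Finset Y)
    (hR : ∀ i, i ∈ R ↔ B.π i ∈ R) (hcard : Even R.card) : ∑ i ∈ R, B.yy i = 0 := by
  have hthird : ∀ i j : Y, ∃ l, i ≠ l ∧ j ≠ l := by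
    intro i j
    by_contra hcon
    push Not at hcon
    have h2 : (Finset.univ : Finset Y) ⊆ {i, j} := by
      intro t _
      rw [Finset.mem_insert, Finset.mem_singleton]
      by_cases h : i = t
      · exact Or.inl h.symm
      · exact Or.inr (hcon t h).symm
    have h3 := Finset.card_le_card h2
    have h4 : ({i, j} : Finset Y).card ≤ 2 := Finset.card_le_two
    rw [Finset.card_univ] at h3
    omega
  choose t ht1 ht2 using hthird
  have hself2 : ∀ a : ZMod 2, a + a = 0 := by decide
  have hdiag : ∀ i l, i ≠ l → B.H i i l = 0 := by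
    intro i l h
    have h1 : D.Par ((B.γ i + B.γ l) * (B.γ i + B.γ l)) 0 := by
      rw [← pow_two]
      exact Par.sq (add_mem (B.hγ _) (B.hγ _)) (B.add_ne h)
    rw [B.H_eq h h h1, Int.cast_zero]
  set u : Y → Y → ZMod 2 := fun i j => B.H i j (t i j) with hu
  have hu_eq : ∀ i j l, i ≠ l → j ≠ l → u i j = B.H i j l := by
    intro i j l hi hj
    by_cases hij : i = j
    · subst hij
      rw [hdiag i l hi]
      exact hdiag i _ (ht1 i i)
    · exact B.H_indep hD hij (ht1 i j) (ht2 i j) hi hj
  have hu_self : ∀ i, u i i = 0 := fun i => hdiag i _ (ht1 i i)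
  have hu_symm : ∀ i j, u i j = u j i := by
    intro i j
    rw [hu_eq j i (t i j) (ht2 i j) (ht1 i j), B.H_symm]
  have hu_coc : ∀ i j l, u i j = u i l + u j l := by
    intro i j l
    by_cases hij : i = j
    · subst hij
      rw [hu_self, hself2]
    by_cases hil : i = l
    · subst hil
      rw [hu_self, zero_add, hu_symm]
    by_cases hjl : j = l
    · subst hjl
      rw [hu_self, add_zero]
    have h1 := B.H_coc hij hjl hil
    rw [← hu_eq i j l hil hjl, ← hu_eq j l i (Ne.symm hij) (Ne.symm hil),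
      ← hu_eq i l j hij (Ne.symm hjl)] at h1
    have h2 := hself2 (u i j)
    linear_combination h1 - hself2 (u j l) - hself2 (u i l)
  have hY' : Nonempty Y := Fintype.card_pos_iff.1 (by omega)
  obtain ⟨b⟩ := hY'
  -- the signs
  have hyu : ∀ i j, B.yy i + B.yy j = u i j + u (B.π i) (B.π j) := by
    intro i j
    by_cases hij : i = j
    · subst hij
      rw [hu_self, hu_self, hself2, add_zero]
    have h1 := B.Hφ (ht1 i j) (ht2 i j)
    rw [← hu_eq _ _ _ (fun h => ht1 i j (B.π.injective h)) (fun h => ht2 i j (B.π.injective h))]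
      at h1
    rw [h1]
    change _ = u i j + (u i j + _)
    rw [← add_assoc, hself2, zero_add]
  have hconst : ∀ i, B.yy i + u i b + u (B.π i) b = B.yy b + u b b + u (B.π b) b := by
    intro i
    have h1 := hyu i b
    rw [hu_coc (B.π i) (B.π b) b] at h1
    rw [hu_self]
    linear_combination h1 - hself2 (B.yy b) + hself2 (u i b) + hself2 (u (B.π i) b)
  set κ := B.yy b + u b b + u (B.π b) b with hκ
  have hyy : ∀ i, B.yy i = κ + u i b + u (B.π i) b := by
    intro i
    rw [← hconst i]
    linear_combination -(hself2 (u i b)) - hself2 (u (B.π i) b)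
  have hπsum : ∑ i ∈ R, u (B.π i) b = ∑ i ∈ R, u i b := by
    refine Finset.sum_bij (fun i _ => B.π i) (fun i hi => (hR i).1 hi)
      (fun i _ j _ h => B.π.injective h) (fun j hj => ⟨B.π.symm j, ?_, B.π.apply_symm_apply j⟩)
      (fun i _ => rfl)
    rw [hR, B.π.apply_symm_apply]
    exact hj
  rw [Finset.sum_congr rfl (fun i _ => hyy i), Finset.sum_add_distrib, Finset.sum_add_distrib,
    hπsum, Finset.sum_const, add_assoc, hself2, add_zero]
  obtain ⟨m, hm⟩ := hcard
  rw [hm, add_smul, hself2]

/-- products over a stable set with an even number of elements are fixed -/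
theorem prod_fixed {q : ℕ} (hD : D.Ok q) (hY : 3 ≤ Fintype.card Y) (R : Finset Y)
    (hR : ∀ i, i ∈ R ↔ B.π i ∈ R) (hcard : Even R.card) :
    D.s D.φ (∏ i ∈ R, B.γ i) = ∏ i ∈ R, B.γ i := by
  rw [map_prod, Finset.prod_congr rfl (fun i _ => B.hyy i), Finset.prod_mul_distrib, ← sg_sum,
    B.sum_yy hD hY R hR hcard, sg_zero, one_mul]
  refine Finset.prod_bij (fun i _ => B.π i) (fun i hi => (hR i).1 hi)
    (fun i _ j _ h => B.π.injective h) (fun j hj => ⟨B.π.symm j, ?_, B.π.apply_symm_apply j⟩)
    (fun i _ => rfl)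
  rw [hR, B.π.apply_symm_apply]
  exact hj

end Gm

end Dat

end Pool.Agent.W623.SecC
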