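import Pool.Agent.W623.SecE.Gam3

/-! # The symbols -/

namespace Pool.Agent.W623.SecC

open Pool.Agent.W620.SC Polynomial Pool.Agent.W623.SecE

universe u v

namespace Dat

variable {k : Type*} {A : Type u} {M : Type v} [Field k] [Field A] [Field M] [Algebra k A]
  {D : Dat k A M}

/-- products of sums of square roots have square roots in `M` -/
def HasSq (D : Dat k A M) : Prop :=
  ∀ (a b c : M) (s t : A), s ≠ 0 → t ≠ 0 → a ^ 2 - c ^ 2 = D.ι s → b ^ 2 - c ^ 2 = D.ι t →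
    ∃ α : M, α ^ 2 = (a + c) * (b + c)

lemma Par.exists_odd {u : M} {j : ℤ} (h : D.Par u j) (hj : Odd j) :
    ∃ w ∈ D.RS, u = D.ι D.p * w ^ 2 := by
  obtain ⟨β, h1, h0, rfl⟩ := h
  obtain ⟨i, rfl⟩ := hj
  refine ⟨D.ι D.p ^ i * β, mul_mem (zpow_mem ιpRS _) h1, ?_⟩
  rw [mul_pow, ← mul_assoc, ← zpow_natCast (D.ι D.p ^ i), ← zpow_mul, zpow_add_one₀ ιp0,
    mul_comm (D.ι D.p)]
  congr 3
  push_cast
  ring

variable {X : Type*} [Fintype X] [DecidableEq X] (B : D.Br X)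

namespace Br

variable [CharZero k] [IsAlgClosed A] [Algebra.IsAlgebraic k A]

lemma zsub (r i : X) (h : i ≠ r) : (B.x - D.ι (B.θ r))⁻¹ - D.ι ((B.θ i - B.θ r)⁻¹) =
    (B.x - D.ι (B.θ i)) / ((B.x - D.ι (B.θ r)) * D.ι (B.θ r - B.θ i)) := by
  have h1 : D.ι (B.θ i) - D.ι (B.θ r) ≠ 0 := by
    rw [← map_sub]
    exact (_root_.map_ne_zero _).2 (B.hθd _ _ h).1
  have h2 : D.ι (B.θ r) - D.ι (B.θ i) ≠ 0 := by
    intro h3
    apply h1
    linear_combination -h3
  have h3 := B.ne r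
  rw [map_inv₀, map_sub, map_sub]
  field_simp
  ring

theorem symbol {q : ℕ} (hD : D.Ok q) (hS : D.HasSq) (r : X) (hr : B.π r = r)
    (hodd : ∀ i, i ≠ r → Odd (B.n i r)) (R : Finset X) (hrR : r ∉ R)
    (hR : ∀ i, i ∈ R ↔ B.π i ∈ R) (hcard : Even R.card) :
    ∃ g ∈ D.RS, D.s D.φ g = g ∧
      g ^ 2 = ∏ i ∈ R, ((B.x - D.ι (B.θ i)) / D.ι (B.θ r - B.θ i)) := by
  -- the `γ i`
  have hγ : ∀ i : {i // i ≠ r}, ∃ w ∈ D.RS,
      (B.x - D.ι (B.θ r))⁻¹ - D.ι ((B.θ i - B.θ r)⁻¹) = D.ι D.p * w ^ 2 := by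
    intro i
    refine Par.exists_odd (j := B.n i r) ?_ (hodd i i.2)
    rw [B.zsub r i i.2]
    have h1 := (Par.const_unit (D := D) (inv_mem (sub_mem (B.hθS r) (B.hθS i)))
      (B.hθd _ _ (Ne.symm i.2)).inv).mul (B.hn i r)
    rw [zero_add, map_inv₀] at h1
    convert h1 using 1
    have h3 := B.ne r
    have h4 : D.ι (B.θ r - B.θ i) ≠ 0 := (_root_.map_ne_zero _).2 (B.hθd _ _ (Ne.symm i.2)).1
    field_simp
  choose γ hγ1 hγ2 using hγ
  have hπr : ∀ i, i ≠ r ↔ B.π i ≠ r := by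
    intro i
    constructor
    · intro h h1
      apply h
      apply B.π.injective
      rw [h1, hr]
    · rintro h rfl
      exact h hr
  have hinv : ∀ i : {i // i ≠ r}, IsU D.V (B.θ i - B.θ r) := fun i => B.hθd _ _ i.2
  let G : D.Gm {i // i ≠ r} :=
    { e := fun i => (B.θ i - B.θ r)⁻¹
      heS := fun i => inv_mem (sub_mem (B.hθS _) (B.hθS _))
      hed := by
        intro i j hij
        have h3 : (B.θ i - B.θ r)⁻¹ - (B.θ j - B.θ r)⁻¹ =
            (B.θ j - B.θ i) * ((B.θ i - B.θ r)⁻¹ * (B.θ j - B.θ r)⁻¹) := by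
          have h4 := (hinv i).1
          have h5 := (hinv j).1
          field_simp
          ring
        rw [h3]
        exact (B.hθd _ _ (fun h => hij (Subtype.ext h.symm))).mul ((hinv i).inv.mul (hinv j).inv)
      π := B.π.subtypeEquiv hπr
      hπ := by
        intro i
        rw [map_inv₀, map_sub, B.hπ, B.hπ, hr]
        rfl
      z := (B.x - D.ι (B.θ r))⁻¹
      hφz := by
        rw [map_inv₀, map_sub, B.hx, D.hι, B.hπ, hr]
      htr := by
        intro a h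
        refine B.htr (a⁻¹ + B.θ r) ?_
        rw [map_add, map_inv₀, h, inv_inv, sub_add_cancel]
      γ := γ
      hγ := hγ1
      hzγ := hγ2
      hsq := by
        intro i j l hil hjl
        have hrel : ∀ i l : {i // i ≠ r}, γ i ^ 2 - γ l ^ 2 =
            D.ι (((B.θ l - B.θ r)⁻¹ - (B.θ i - B.θ r)⁻¹) / D.p) := by
          intro i l
          rw [map_div₀, eq_div_iff ιp0, map_sub]
          linear_combination hγ2 l - hγ2 i
        have hne : ∀ i l : {i // i ≠ r}, i ≠ l →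
            ((B.θ l - B.θ r)⁻¹ - (B.θ i - B.θ r)⁻¹) / D.p ≠ 0 := by
          intro i l hil
          refine div_ne_zero ?_ D.p0
          rw [sub_ne_zero]
          intro h
          have h1 := inv_injective h
          have h2 : B.θ l = B.θ i := by linear_combination h1
          exact (B.hθd _ _ (fun h => hil (Subtype.ext h.symm))).1 (sub_eq_zero.2 h2)
        exact hS (γ i) (γ j) (γ l) _ _ (hne i l hil) (hne j l hjl) (hrel i l) (hrel j l) }
  have hY : 3 ≤ Fintype.card {i // i ≠ r} := by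
    have h1 := B.hX4
    rw [Fintype.card_subtype_compl, Fintype.card_subtype_eq]
    omega
  set R' : Finset {i // i ≠ r} := R.subtype (fun i => i ≠ r) with hR'
  have hmap : R'.map (Function.Embedding.subtype _) = R := by
    rw [hR', Finset.subtype_map]
    apply Finset.filter_true_of_mem
    rintro i hi rfl
    exact hrR hi
  have hcard' : R'.card = R.card := by
    rw [← hmap, Finset.card_map]
  have hfix := G.prod_fixed hD hY R' (by
    intro i
    rw [hR', Finset.mem_subtype, Finset.mem_subtype]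
    exact hR i) (by rwa [hcard'])
  obtain ⟨m, hm⟩ := hcard
  have hprod : ∏ i ∈ R', D.ι (B.θ r - B.θ i) ≠ 0 := by
    refine Finset.prod_ne_zero_iff.2 fun i _ => (_root_.map_ne_zero _).2 ?_
    exact (B.hθd _ _ (Ne.symm i.2)).1
  refine ⟨((B.x - D.ι (B.θ r)) * D.ι D.p) ^ m * ∏ i ∈ R', γ i, ?_, ?_, ?_⟩
  · refine mul_mem (pow_mem (mul_mem (B.mem r) ιpRS) _) (prod_mem fun i _ => hγ1 i)
  · rw [map_mul, map_pow, map_mul, map_sub, B.hx, D.hι, D.hι, B.hπ, hr]
    have h2 : D.φ D.p = D.p := D.φ.commutes _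
    rw [h2]
    congr 1
  · have h1 : ∏ i ∈ R, ((B.x - D.ι (B.θ i)) / D.ι (B.θ r - B.θ i)) =
        ∏ i ∈ R', ((B.x - D.ι (B.θ i)) / D.ι (B.θ r - B.θ i)) := by
      conv_lhs => rw [← hmap]
      rw [Finset.prod_map]
      rfl
    have h3 : ∀ i : {i // i ≠ r}, (B.x - D.ι (B.θ i)) / D.ι (B.θ r - B.θ i) =
        (B.x - D.ι (B.θ r)) * D.ι D.p * γ i ^ 2 := by
      intro i
      rw [mul_assoc, ← hγ2, B.zsub r i i.2]
      have h3 := B.ne r
      have h4 : D.ι (B.θ r - B.θ i) ≠ 0 := (_root_.map_ne_zero _).2 (B.hθd _ _ (Ne.symm i.2)).1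
      field_simp
    rw [h1, Finset.prod_congr rfl (fun i _ => h3 i), Finset.prod_mul_distrib, Finset.prod_const,
      hcard', hm, Finset.prod_pow]
    ring

end Br

end Dat

end Pool.Agent.W623.SecC
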